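import Pool.Agent.P.MP_9ec3f0_nt.ABC.Defs

/-!
Diagonal bound for the block diagonal square root.
-/

open Finset

namespace Pool.Agent.P.MP_9ec3f0_nt.ABC

section Pinch
variable {ι κ : Type*} [Fintype ι] [DecidableEq ι] [DecidableEq κ]

omit [DecidableEq ι] in
lemma diag_sq_mulVec (B : Matrix ι ι ℝ) (hB : ∀ x y, B x y = B y x) (v : ι → ℝ) :
    ∑ w, (∑ y, B w y * v y) ^ 2 = ∑ y, ∑ y', v y * v y' * (B * B) y y' := by
  simp only [sq, sum_mul_sum]
  rw [sum_comm]
  refine sum_congr rfl fun y _ => ?_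
  rw [sum_comm]
  refine sum_congr rfl fun y' _ => ?_
  rw [Matrix.mul_apply, mul_sum]
  refine sum_congr rfl fun w _ => ?_
  rw [hB y w]
  ring

lemma diag_quad (cls : ι → κ) (A : Matrix ι ι ℝ) (hA : ∀ x y, A x y = A y x) {ε : ℝ}
    (K : Matrix ι ι ℝ) (hK : ∀ x y, K x y = K y x)
    (hKK : ∀ x y, (K * K) x y =
        (if cls x = cls y then (A * A) x y else 0) + (if x = y then ε else 0))
    (c : κ) (v : ι → ℝ) (hv : ∀ x, cls x ≠ c → v x = 0) :
    ∑ w, (∑ y, A w y * v y) ^ 2 + ε * ∑ y, v y ^ 2 = ∑ w, (∑ y, K w y * v y) ^ 2 := by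
  rw [diag_sq_mulVec A hA, diag_sq_mulVec K hK, mul_sum, ← sum_add_distrib]
  refine sum_congr rfl fun y _ => ?_
  have : ∀ y', v y * v y' * (K * K) y y' =
      v y * v y' * (A * A) y y' + (if y = y' then ε * v y ^ 2 else 0) := by
    intro y'
    rw [hKK]
    by_cases h1 : cls y = cls y'
    · by_cases h2 : y = y'
      · subst h2; simp only [if_true]; ring
      · simp [h1, h2]
    · have h2 : y ≠ y' := fun h => h1 (h ▸ rfl)
      by_cases h3 : cls y = c
      · simp [hv y' (fun h => h1 (h3.trans h.symm)), h2]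
      · simp [hv y h3]
  simp only [this, sum_add_distrib, sum_ite_eq, mem_univ, if_true]

lemma diag_exists_inv (cls : ι → κ) (K : Matrix ι ι ℝ) (hK : K.PosDef)
    (hb : ∀ x y, cls x ≠ cls y → K x y = 0) :
    ∃ L : Matrix ι ι ℝ, K * L = 1 ∧ L * K = 1 ∧ (∀ x y, L x y = L y x) ∧
      ∀ x y, cls x ≠ cls y → L x y = 0 := by
  have hu : IsUnit K.det := (Matrix.isUnit_iff_isUnit_det K).mp hK.isUnit
  have h1 : K * K⁻¹ = 1 := Matrix.mul_nonsing_inv K hu
  have h2 : K⁻¹ * K = 1 := Matrix.nonsing_inv_mul K hu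
  let L : Matrix ι ι ℝ := fun x y => if cls x = cls y then K⁻¹ x y else 0
  have h3 : K * L = 1 := by
    ext x y
    by_cases h : cls x = cls y
    · rw [← h1, Matrix.mul_apply, Matrix.mul_apply]
      refine sum_congr rfl fun z _ => ?_
      by_cases h' : cls z = cls y
      · simp [L, h']
      · rw [hb x z fun h'' => h' (h''.symm.trans h)]; simp
    · rw [Matrix.one_apply_ne fun h' : x = y => h (congrArg cls h'), Matrix.mul_apply]
      refine sum_eq_zero fun z _ => ?_
      by_cases h' : cls z = cls y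
      · rw [hb x z fun h'' => h (h''.trans h')]; simp
      · simp [L, h']
  have h4 : L = K⁻¹ := by
    rw [← Matrix.one_mul L, ← h2, Matrix.mul_assoc, h3, Matrix.mul_one]
  refine ⟨K⁻¹, h1, h2, fun x y => ?_, fun x y h => ?_⟩
  · have := congrFun (congrFun hK.inv.isHermitian.eq y) x
    simpa using this
  · rw [← h4]; simp [L, h]

omit [DecidableEq ι] in
lemma diag_bessel {T : Type*} [Fintype T] [DecidableEq T] (e : T → ι → ℝ)
    (he : ∀ a b, ∑ x, e a x * e b x = if a = b then 1 else 0) (v : ι → ℝ) :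
    ∑ w, (v w - ∑ a, (∑ y, e a y * v y) * e a w) ^ 2 =
      ∑ w, v w ^ 2 - ∑ a, (∑ y, e a y * v y) ^ 2 := by
  set c : T → ℝ := fun a => ∑ y, e a y * v y with hc
  have h1 : ∑ w, v w * ∑ a, c a * e a w = ∑ a, c a ^ 2 := by
    simp only [mul_sum]
    rw [sum_comm]
    refine sum_congr rfl fun a _ => ?_
    rw [sq]
    conv_rhs => rw [hc]
    simp only [mul_sum]
    exact sum_congr rfl fun w _ => by simp only [hc]; ring
  have h2 : ∑ w, (∑ a, c a * e a w) ^ 2 = ∑ a, c a ^ 2 := by
    simp only [sq, sum_mul_sum]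
    rw [sum_comm]
    refine sum_congr rfl fun a _ => ?_
    rw [sum_comm]
    have : ∀ b, ∑ w, c a * e a w * (c b * e b w) = if a = b then c a * c a else 0 := fun b => by
      have : ∑ w, c a * e a w * (c b * e b w) = c a * c b * ∑ w, e a w * e b w := by
        rw [mul_sum]; exact sum_congr rfl fun w _ => by ring
      rw [this, he]
      split_ifs with h
      · rw [h, mul_one]
      · rw [mul_zero]
    simp only [this, sum_ite_eq, mem_univ, if_true]
  have : ∀ w, (v w - ∑ a, c a * e a w) ^ 2 =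
      v w ^ 2 - 2 * (v w * ∑ a, c a * e a w) + (∑ a, c a * e a w) ^ 2 := fun w => by ring
  rw [sum_congr rfl fun w _ => this w, sum_add_distrib, sum_sub_distrib, ← mul_sum, h1, h2]
  ring

/-- T2 (file Diag.lean) -/
theorem diag_bound {T : Type*} [Fintype T] [DecidableEq T]
    (cls : ι → κ) (A : Matrix ι ι ℝ) (hA : A.IsSymm) {ε : ℝ} (hε : 0 < ε)
    (K : Matrix ι ι ℝ) (hK : K.PosDef) (hb : ∀ x y, cls x ≠ cls y → K x y = 0)
    (hKK : ∀ x y, (K * K) x y =
        (if cls x = cls y then (A * A) x y else 0) + (if x = y then ε else 0))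
    (e : T → ι → ℝ) (he : ∀ a b, ∑ x, e a x * e b x = if a = b then 1 else 0)
    (X' : Finset ι) (μ : ℝ) (hμ0 : 0 ≤ μ) (hμ : ∀ x ∈ X', (A * A) x x ≤ μ)
    (M : ℕ) (hM : (univ.image cls).card ≤ M) :
    ∑ x, K x x ^ 2 ≤
      3 * (M * Fintype.card T * μ +
          (∑ x, ∑ y, A x y ^ 2 - ∑ a, ∑ x, (∑ y, e a y * A y x) ^ 2)) +
        ∑ x ∈ X'ᶜ, (A * A) x x + 4 * ε * Fintype.card ι := by
  have hAs : ∀ x y, A x y = A y x := fun x y => hA.apply y x
  have hKs : ∀ x y, K x y = K y x := fun x y => by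
    have := congrFun (congrFun hK.isHermitian.eq y) x
    simpa using this
  obtain ⟨L, hKL, hLK, hLs, hLb⟩ := diag_exists_inv cls K hK hb
  set U := A * L with hU
  -- the basic identity
  have key : ∀ (c : κ) (z : ι → ℝ), (∀ x, cls x ≠ c → z x = 0) →
      ∑ w, (∑ x, U w x * z x) ^ 2 + ε * ∑ y, (∑ x, L y x * z x) ^ 2 = ∑ x, z x ^ 2 := by
    intro c z hz
    have h := diag_quad cls A hAs K hKs hKK c (fun y => ∑ x, L y x * z x) fun y hy =>
      sum_eq_zero fun x _ => by
        by_cases hx : cls x = c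
        · rw [hLb y x fun h => hy (h.trans hx), zero_mul]
        · rw [hz x hx, mul_zero]
    have e1 : ∀ (B : Matrix ι ι ℝ) w, ∑ y, B w y * ∑ x, L y x * z x = ∑ x, (B * L) w x * z x := by
      intro B w
      simp only [Matrix.mul_apply, mul_sum, sum_mul]
      rw [sum_comm]
      exact sum_congr rfl fun x _ => sum_congr rfl fun y _ => by ring
    simp only [e1, hKL, Matrix.one_apply, ite_mul, one_mul, zero_mul, sum_ite_eq, mem_univ,
      if_true] at h
    exact h
  have hcol : ∀ x, ∑ w, U w x ^ 2 + ε * ∑ y, L y x ^ 2 = 1 := fun x => by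
    have := key (cls x) (fun y => if y = x then 1 else 0) fun y hy =>
      if_neg fun h : y = x => hy (congrArg cls h)
    simpa using this
  have hU1 : ∀ x, ∑ w, U w x ^ 2 ≤ 1 := fun x => by
    have : 0 ≤ ε * ∑ y, L y x ^ 2 := by positivity
    linarith [hcol x]
  have hL1 : ∀ x, (ε * L x x) ^ 2 ≤ ε := fun x => by
    have h1 : 0 ≤ ∑ w, U w x ^ 2 := by positivity
    have h2 : L x x ^ 2 ≤ ∑ y, L y x ^ 2 :=
      single_le_sum (f := fun y => L y x ^ 2) (fun _ _ => sq_nonneg _) (mem_univ x)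
    have h3 : ε * L x x ^ 2 ≤ 1 := by nlinarith [hcol x]
    nlinarith
  have hdiag : ∀ x, K x x = ∑ w, U w x * A w x + ε * L x x := fun x => by
    have h1 : K x x = ∑ y, L x y * (K * K) y x := by
      rw [← Matrix.mul_apply, ← Matrix.mul_assoc, hLK, Matrix.one_mul]
    have h2 : ∀ y, L x y * (K * K) y x =
        L x y * (A * A) y x + (if y = x then ε * L x x else 0) := fun y => by
      rw [hKK]
      by_cases h : cls y = cls x
      · by_cases h' : y = x
        · subst h'; simp only [if_true]; ring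
        · simp [h, h']
      · have h' : y ≠ x := fun h' => h (h' ▸ rfl)
        simp [hLb x y (Ne.symm h), h']
    rw [h1, sum_congr rfl fun y _ => h2 y]
    simp only [sum_add_distrib, sum_ite_eq', mem_univ, if_true, hU, Matrix.mul_apply, mul_sum,
      sum_mul]
    rw [sum_comm]
    congr 1
    exact sum_congr rfl fun w _ => sum_congr rfl fun y _ => by rw [hLs x y, hAs y w]; ring
  -- projections of the columns of U
  have hproj : ∀ a, ∑ x, (∑ w, e a w * U w x) ^ 2 ≤ M := fun a => by
    have h1 : ∀ c, ∑ x with cls x = c, (∑ w, e a w * U w x) ^ 2 ≤ 1 := fun c => by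
      set z : ι → ℝ := fun x => if cls x = c then ∑ w, e a w * U w x else 0 with hz
      have hs : ∑ x with cls x = c, (∑ w, e a w * U w x) ^ 2 = ∑ x, z x ^ 2 := by
        rw [sum_filter]
        exact sum_congr rfl fun x _ => by simp only [hz]; split_ifs <;> simp
      have h2 : ∑ x, z x ^ 2 = ∑ w, e a w * ∑ x, U w x * z x := by
        simp only [mul_sum]
        rw [sum_comm]
        refine sum_congr rfl fun x _ => ?_
        have : ∑ w, e a w * (U w x * z x) = (∑ w, e a w * U w x) * z x := by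
          rw [sum_mul]; exact sum_congr rfl fun w _ => by ring
        rw [this]
        simp only [hz]
        split_ifs <;> ring
      have h3 := sum_mul_sq_le_sq_mul_sq univ (e a) fun w => ∑ x, U w x * z x
      have h4 : ∑ w, e a w ^ 2 = 1 := by simpa [sq] using he a a
      have h5 := key c z fun x hx => if_neg hx
      have h6 : 0 ≤ ε * ∑ y, (∑ x, L y x * z x) ^ 2 := by positivity
      have h7 : 0 ≤ ∑ x, z x ^ 2 := by positivity
      rw [← h2, h4, one_mul] at h3
      rw [hs]
      nlinarith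
    rw [← sum_fiberwise_of_maps_to (s := univ) (t := univ.image cls) (g := cls)
      fun x _ => mem_image_of_mem _ (mem_univ x)]
    refine (sum_le_sum fun c _ => h1 c).trans ?_
    simpa using hM
  have hAA : ∀ x, (A * A) x x = ∑ w, A w x ^ 2 := fun x => by
    rw [Matrix.mul_apply]; exact sum_congr rfl fun w _ => by rw [hAs x w, sq]
  -- pointwise bound
  have hpt : ∀ x, K x x ^ 2 ≤ 3 * ((∑ a, (∑ w, e a w * U w x) ^ 2) * μ +
      (∑ w, A w x ^ 2 - ∑ a, (∑ y, e a y * A y x) ^ 2)) +
      (if x ∈ X'ᶜ then (A * A) x x else 0) + 4 * ε := fun x => by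
    have b := diag_bessel e he fun w => A w x
    have b0 : 0 ≤ ∑ w, A w x ^ 2 - ∑ a, (∑ y, e a y * A y x) ^ 2 := by rw [← b]; positivity
    have p0 : 0 ≤ ∑ a, (∑ w, e a w * U w x) ^ 2 := by positivity
    have p1 := mul_nonneg p0 hμ0
    split_ifs with hx
    · have h1 : K x x ^ 2 ≤ (K * K) x x := by
        rw [Matrix.mul_apply, sq]
        exact single_le_sum (f := fun y => K x y * K y x)
          (fun y _ => by rw [hKs y x]; exact mul_self_nonneg _) (mem_univ x)
      rw [hKK, if_pos rfl, if_pos rfl] at h1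
      linarith
    · have hx' : x ∈ X' := by simpa using hx
      have hμx := hμ x hx'
      rw [hAA] at hμx
      have s1 : ∑ w, U w x * A w x = ∑ a, (∑ w, e a w * U w x) * (∑ y, e a y * A y x) +
          ∑ w, U w x * (A w x - ∑ a, (∑ y, e a y * A y x) * e a w) := by
        have : ∑ a, (∑ w, e a w * U w x) * (∑ y, e a y * A y x) =
            ∑ w, U w x * ∑ a, (∑ y, e a y * A y x) * e a w := by
          simp only [mul_sum (s := (univ : Finset T))]
          rw [sum_comm]
          refine sum_congr rfl fun a _ => ?_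
          rw [sum_mul]
          exact sum_congr rfl fun w _ => by ring
        rw [this, ← sum_add_distrib]
        exact sum_congr rfl fun w _ => by ring
      have c1 := sum_mul_sq_le_sq_mul_sq univ (fun a => ∑ w, e a w * U w x)
        fun a => ∑ y, e a y * A y x
      have c2 := sum_mul_sq_le_sq_mul_sq univ (fun w => U w x)
        fun w => A w x - ∑ a, (∑ y, e a y * A y x) * e a w
      rw [b] at c2
      have c3 := c1.trans (mul_le_mul_of_nonneg_left
        (show ∑ a, (∑ y, e a y * A y x) ^ 2 ≤ μ by linarith) p0)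
      have c4 := c2.trans (mul_le_of_le_one_left b0 (hU1 x))
      have c5 := hL1 x
      rw [hdiag, s1]
      generalize ∑ a, (∑ w, e a w * U w x) * (∑ y, e a y * A y x) = r1 at c3 ⊢
      generalize ∑ w, U w x * (A w x - ∑ a, (∑ y, e a y * A y x) * e a w) = r2 at c4 ⊢
      generalize ε * L x x = r3 at c5 ⊢
      nlinarith [sq_nonneg (r1 - r2), sq_nonneg (r1 - r3), sq_nonneg (r2 - r3)]
  refine (sum_le_sum fun x _ => hpt x).trans ?_
  have t1 : ∑ x, ∑ a, (∑ w, e a w * U w x) ^ 2 ≤ M * Fintype.card T := by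
    rw [sum_comm]
    refine (sum_le_sum fun a _ => hproj a).trans ?_
    simp [mul_comm]
  have t2 := mul_le_mul_of_nonneg_right t1 hμ0
  simp only [sum_add_distrib, ← mul_sum, ← sum_mul, sum_sub_distrib, sum_ite_mem, univ_inter,
    sum_const, card_univ, nsmul_eq_mul]
  rw [sum_comm (f := fun x w => A w x ^ 2), sum_comm (f := fun x a => (∑ y, e a y * A y x) ^ 2)]
  nlinarith

end Pinch

end Pool.Agent.P.MP_9ec3f0_nt.ABC
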