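import Pool.Agent.P.MP_9ec3f0_nt.ABC.Pinch
import Pool.Agent.P.MP_9ec3f0_nt.ABC.Diag

/-!
The abstract coloured packing bound.
-/

open Finset

namespace Pool.Agent.P.MP_9ec3f0_nt.ABC

section Pinch
variable {ι κ : Type*} [Fintype ι] [DecidableEq ι] [DecidableEq κ]

omit [DecidableEq ι] in
lemma abstract_expand (B : Matrix ι ι ℝ) (hB : ∀ x y, B x y = B y x) (f : ι → ℝ) :
    ∑ x, ∑ y, (f x - f y) ^ 2 * B x y ^ 2 =
      2 * ∑ x, f x ^ 2 * ∑ y, B x y ^ 2 - 2 * ∑ x, ∑ y, f x * f y * B x y ^ 2 := by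
  have h1 : ∀ x y, (f x - f y) ^ 2 * B x y ^ 2 =
      f x ^ 2 * B x y ^ 2 + f y ^ 2 * B y x ^ 2 - 2 * (f x * f y * B x y ^ 2) := fun x y => by
    rw [hB y x]; ring
  have h2 : ∑ x, ∑ y, f y ^ 2 * B y x ^ 2 = ∑ x, ∑ y, f x ^ 2 * B x y ^ 2 := sum_comm
  simp only [h1, sum_sub_distrib, sum_add_distrib, h2]
  simp only [← mul_sum]
  ring

/-- T2 (file Abstract.lean, imports Pinch and Diag) -/
theorem abstract_packing {T S : Type*} [Fintype T] [DecidableEq T] [Fintype S]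
    (cls : ι → κ) (M : ℕ) (hM : (univ.image cls).card ≤ M)
    (A : Matrix ι ι ℝ) (hA : A.IsSymm) (hA1 : ∑ x, ∑ y, A x y ^ 2 = 1)
    (γ : S → ℝ) (hγ : ∀ j, 0 ≤ γ j) (f : S → ι → ℝ) (d : ι → ι → ℝ)
    (hd : ∀ x y, d x y = ∑ j, γ j * (f j x - f j y) ^ 2)
    (e : T → ι → ℝ) (he : ∀ a b, ∑ x, e a x * e b x = if a = b then 1 else 0)
    (X' : Finset ι) (μ : ℝ) (hμ0 : 0 ≤ μ) (hμ : ∀ x ∈ X', (A * A) x x ≤ μ)
    (lam η D : ℝ) (hlam : ∑ x, ∑ y, d x y * A x y ^ 2 ≤ lam)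
    (hη : 3 * (M * Fintype.card T * μ + (1 - ∑ a, ∑ x, (∑ y, e a y * A y x) ^ 2)) +
        ∑ x ∈ X'ᶜ, (A * A) x x ≤ η)
    (hD : 0 < D) (hgap : lam < D * (1 - η)) :
    ∃ x y, x ≠ y ∧ cls x = cls y ∧ d x y < D := by
  by_contra hcon
  push Not at hcon
  have hAs : ∀ x y, A x y = A y x := fun x y => hA.apply y x
  obtain ⟨C, hC⟩ : ∃ C, C = 2 * ∑ j, γ j * ∑ x, f j x ^ 2 := ⟨_, rfl⟩
  have hC0 : 0 ≤ C := by
    rw [hC]
    exact mul_nonneg zero_le_two (sum_nonneg fun j _ => mul_nonneg (hγ j) (by positivity))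
  obtain ⟨n, hn⟩ : ∃ n : ℝ, n = Fintype.card ι := ⟨_, rfl⟩
  have hn0 : 0 ≤ n := by rw [hn]; positivity
  obtain ⟨ε, hεdef⟩ : ∃ ε, ε = (D * (1 - η) - lam) / (C + 3 * D * n + 1) := ⟨_, rfl⟩
  have hden : 0 < C + 3 * D * n + 1 := by positivity
  have hε : 0 < ε := by rw [hεdef]; exact div_pos (by linarith) hden
  have hε' : ε * (C + 3 * D * n + 1) = D * (1 - η) - lam := by
    rw [hεdef, div_mul_cancel₀ _ hden.ne']
  obtain ⟨K, hK, hb, hKK⟩ := exists_root cls A hA hε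
  have hKs : ∀ x y, K x y = K y x := fun x y => by
    have := congrFun (congrFun hK.isHermitian.eq y) x
    simpa using this
  have hrow : ∀ x, ∑ y, K x y ^ 2 = ∑ y, A x y ^ 2 + ε := fun x => by
    have h := hKK x x
    rw [if_pos rfl, if_pos rfl, Matrix.mul_apply, Matrix.mul_apply] at h
    have e1 : ∑ y, K x y ^ 2 = ∑ y, K x y * K y x := sum_congr rfl fun y _ => by rw [hKs y x, sq]
    have e2 : ∑ y, A x y ^ 2 = ∑ y, A x y * A y x := sum_congr rfl fun y _ => by rw [hAs y x, sq]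
    rw [e1, e2, h]
  have hdsum : ∀ B : Matrix ι ι ℝ, ∑ x, ∑ y, d x y * B x y ^ 2 =
      ∑ j, γ j * ∑ x, ∑ y, (f j x - f j y) ^ 2 * B x y ^ 2 := fun B => by
    simp only [hd, sum_mul, mul_sum]
    rw [sum_comm (s := (univ : Finset S))]
    refine sum_congr rfl fun x _ => ?_
    rw [sum_comm (s := (univ : Finset S))]
    exact sum_congr rfl fun y _ => sum_congr rfl fun j _ => by ring
  have h1 : ∑ x, ∑ y, d x y * K x y ^ 2 ≤ lam + ε * C := by
    refine le_trans ?_ (add_le_add hlam le_rfl)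
    rw [hdsum, hdsum, hC, mul_sum, mul_sum, ← sum_add_distrib]
    refine sum_le_sum fun j _ => ?_
    have k1 := skew_mono cls A hA hε K hK hb hKK (f j)
    have k2 : ∑ x, f j x ^ 2 * ∑ y, K x y ^ 2 =
        ∑ x, f j x ^ 2 * ∑ y, A x y ^ 2 + ε * ∑ x, f j x ^ 2 := by
      rw [mul_sum, ← sum_add_distrib]
      exact sum_congr rfl fun x _ => by rw [hrow]; ring
    rw [abstract_expand K hKs, abstract_expand A hAs, k2]
    nlinarith [mul_le_mul_of_nonneg_left k1 (hγ j)]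
  have h2 : D * (∑ x, ∑ y, K x y ^ 2 - ∑ x, K x x ^ 2) ≤ ∑ x, ∑ y, d x y * K x y ^ 2 := by
    rw [← sum_sub_distrib, mul_sum]
    refine sum_le_sum fun x _ => ?_
    have : D * (∑ y, K x y ^ 2 - K x x ^ 2) =
        ∑ y, (D * K x y ^ 2 - if x = y then D * K x x ^ 2 else 0) := by
      rw [sum_sub_distrib, ← mul_sum, sum_ite_eq, if_pos (mem_univ x)]
      ring
    rw [this]
    refine sum_le_sum fun y _ => ?_
    split_ifs with h
    · subst h
      rw [sub_self, hd]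
      simp
    · by_cases hc : cls x = cls y
      · rw [sub_zero]
        exact mul_le_mul_of_nonneg_right (hcon x y h hc) (sq_nonneg _)
      · rw [hb x y hc]
        simp
  have h3 : ∑ x, ∑ y, K x y ^ 2 = 1 + ε * n := by
    simp only [hrow, sum_add_distrib, hA1, sum_const, card_univ, nsmul_eq_mul, hn]
    ring
  have h4 := diag_bound cls A hA hε K hK hb hKK e he X' μ hμ0 hμ M hM
  rw [hA1, ← hn] at h4
  have h5 : ∑ x, K x x ^ 2 ≤ η + 4 * ε * n := by linarith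
  have h6 := mul_le_mul_of_nonneg_left h5 hD.le
  rw [h3] at h2
  nlinarith

end Pinch

end Pool.Agent.P.MP_9ec3f0_nt.ABC
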