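import Pool.Agent.P.MP_9ec3f0_nt.ABC.Defs

/-!
From a collision modulo a power of two to an abc triple.
-/

open Finset

namespace Pool.Agent.P.MP_9ec3f0_nt.ABC

theorem prod_union_le (s t : Finset ℕ) (ht : ∀ p ∈ t, 1 ≤ p) (hs : ∀ p ∈ s, 1 ≤ p) :
    ∏ p ∈ s ∪ t, p ≤ (∏ p ∈ s, p) * ∏ p ∈ t, p := by
  rw [← Finset.prod_union_inter]
  have h : 1 ≤ ∏ p ∈ s ∩ t, p :=
    Finset.one_le_prod' fun p hp => hs p (Finset.mem_inter.1 hp).1
  exact Nat.le_mul_of_pos_right _ h

theorem one_le_of_mem_oddPrimes {y p : ℕ} (hp : p ∈ oddPrimes y) : 1 ≤ p :=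
  (Finset.mem_filter.1 hp).2.one_le

theorem prime_of_mem_oddPrimes {y p : ℕ} (hp : p ∈ oddPrimes y) : p.Prime :=
  (Finset.mem_filter.1 hp).2

theorem three_le_of_mem_oddPrimes {y p : ℕ} (hp : p ∈ oddPrimes y) : 3 ≤ p :=
  (Finset.mem_Icc.1 (Finset.mem_filter.1 hp).1).1

theorem triple_of_lt (y k a c : ℕ) (ha : 0 < a) (hac : a < c) (hco : Nat.Coprime a c)
    (hmod : a ≡ c [MOD 2 ^ k]) (hpa : a.primeFactors ⊆ oddPrimes y)
    (hpc : c.primeFactors ⊆ oddPrimes y) :
    0 < c - a ∧ Nat.Coprime a (c - a) ∧ a + (c - a) = c ∧ 2 ^ k ≤ c ∧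
      (∏ p ∈ (a * (c - a) * c).primeFactors, p) * 2 ^ k ≤ 2 * (∏ p ∈ oddPrimes y, p) * c := by
  have hpos : 0 < c - a := Nat.sub_pos_of_lt hac
  have hdvd : 2 ^ k ∣ c - a := (Nat.modEq_iff_dvd' hac.le).1 hmod
  obtain ⟨e, he⟩ := hdvd
  have he0 : e ≠ 0 := by
    rintro rfl
    omega
  have hc0 : c ≠ 0 := by omega
  refine ⟨hpos, (Nat.coprime_sub_self_right hac.le).2 hco, by omega,
    (Nat.le_of_dvd hpos ⟨e, he⟩).trans (Nat.sub_le _ _), ?_⟩
  have hsub : (a * (c - a) * c).primeFactors ⊆ oddPrimes y ∪ ({2} ∪ e.primeFactors) := by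
    intro p hp
    have hpp : p.Prime := Nat.prime_of_mem_primeFactors hp
    have hd : p ∣ a * (c - a) * c := Nat.dvd_of_mem_primeFactors hp
    rcases (Nat.Prime.dvd_mul hpp).1 hd with h | h
    · rcases (Nat.Prime.dvd_mul hpp).1 h with h | h
      · exact Finset.mem_union_left _ (hpa (Nat.mem_primeFactors.2 ⟨hpp, h, ha.ne'⟩))
      · rw [he] at h
        rcases (Nat.Prime.dvd_mul hpp).1 h with h | h
        · have h2 : p = 2 :=
            (Nat.prime_dvd_prime_iff_eq hpp Nat.prime_two).1 (hpp.dvd_of_dvd_pow h)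
          exact Finset.mem_union_right _ (Finset.mem_union_left _ (Finset.mem_singleton.2 h2))
        · exact Finset.mem_union_right _
            (Finset.mem_union_right _ (Nat.mem_primeFactors.2 ⟨hpp, h, he0⟩))
    · exact Finset.mem_union_left _ (hpc (Nat.mem_primeFactors.2 ⟨hpp, h, hc0⟩))
  have h1e : ∀ p ∈ e.primeFactors, 1 ≤ p := fun p hp => (Nat.prime_of_mem_primeFactors hp).one_le
  have h12 : ∀ p ∈ ({2} : Finset ℕ), 1 ≤ p := fun p hp => by
    rw [Finset.mem_singleton.1 hp]; norm_num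
  have h1u : ∀ p ∈ ({2} : Finset ℕ) ∪ e.primeFactors, 1 ≤ p := fun p hp => by
    rcases Finset.mem_union.1 hp with h | h
    · exact h12 p h
    · exact h1e p h
  have h1 : ∏ p ∈ (a * (c - a) * c).primeFactors, p ≤
      ∏ p ∈ oddPrimes y ∪ ({2} ∪ e.primeFactors), p := by
    apply Finset.prod_le_prod_of_subset_of_one_le' hsub
    intro p hp _
    rcases Finset.mem_union.1 hp with h | h
    · exact one_le_of_mem_oddPrimes h
    · exact h1u p h
  have h2 := prod_union_le (oddPrimes y) ({2} ∪ e.primeFactors) h1u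
    fun p hp => one_le_of_mem_oddPrimes hp
  have h3 := prod_union_le {2} e.primeFactors h1e h12
  rw [Finset.prod_singleton] at h3
  have h4 : ∏ p ∈ e.primeFactors, p ≤ e :=
    Nat.le_of_dvd (Nat.pos_of_ne_zero he0) (Nat.prod_primeFactors_dvd e)
  have h5 : ∏ p ∈ (a * (c - a) * c).primeFactors, p ≤ (∏ p ∈ oddPrimes y, p) * (2 * e) :=
    h1.trans (h2.trans (Nat.mul_le_mul_left _ (h3.trans (Nat.mul_le_mul_left _ h4))))
  calc (∏ p ∈ (a * (c - a) * c).primeFactors, p) * 2 ^ k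
      ≤ (∏ p ∈ oddPrimes y, p) * (2 * e) * 2 ^ k := Nat.mul_le_mul_right _ h5
    _ = 2 * (∏ p ∈ oddPrimes y, p) * (2 ^ k * e) := by ring
    _ ≤ 2 * (∏ p ∈ oddPrimes y, p) * c := Nat.mul_le_mul_left _ (by omega)

/-- The part of the first product not shared with the second. -/
def excess (y : ℕ) (x x' : oddPrimes y → ℕ) : ℕ := ∏ p : oddPrimes y, (p : ℕ) ^ (x p - x' p)

theorem excess_pos (y : ℕ) (x x' : oddPrimes y → ℕ) : 0 < excess y x x' :=
  Finset.prod_pos fun p _ => pow_pos (one_le_of_mem_oddPrimes p.2) _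

theorem excess_primeFactors (y : ℕ) (x x' : oddPrimes y → ℕ) :
    (excess y x x').primeFactors ⊆ oddPrimes y := by
  intro q hq
  have hqp : q.Prime := Nat.prime_of_mem_primeFactors hq
  have hd : q ∣ excess y x x' := Nat.dvd_of_mem_primeFactors hq
  obtain ⟨p, -, hp⟩ := (Prime.dvd_finsetProd_iff hqp.prime _).1 hd
  have : q = p := (Nat.prime_dvd_prime_iff_eq hqp (prime_of_mem_oddPrimes p.2)).1
    (hqp.dvd_of_dvd_pow hp)
  rw [this]
  exact p.2

theorem excess_coprime (y : ℕ) (x x' : oddPrimes y → ℕ) :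
    Nat.Coprime (excess y x x') (excess y x' x) := by
  unfold excess
  refine Nat.Coprime.prod_left fun p _ => Nat.Coprime.prod_right fun q _ => ?_
  by_cases h : p = q
  · subst h
    rcases le_total (x p) (x' p) with h | h
    · rw [Nat.sub_eq_zero_of_le h, pow_zero]; exact Nat.coprime_one_left _
    · rw [Nat.sub_eq_zero_of_le h, pow_zero]; exact Nat.coprime_one_right _
  · exact Nat.Coprime.pow _ _ ((Nat.coprime_primes (prime_of_mem_oddPrimes p.2)
      (prime_of_mem_oddPrimes q.2)).2 fun h' => h (Subtype.ext h'))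

theorem le_of_excess_eq_one (y : ℕ) (x x' : oddPrimes y → ℕ) (h : excess y x x' = 1)
    (p : oddPrimes y) : x p ≤ x' p := by
  have hd : (p : ℕ) ^ (x p - x' p) ∣ excess y x x' :=
    Finset.dvd_prod_of_mem (fun p : oddPrimes y => (p : ℕ) ^ (x p - x' p)) (Finset.mem_univ p)
  rw [h, Nat.dvd_one] at hd
  have h3 := three_le_of_mem_oddPrimes p.2
  rcases Nat.pow_eq_one.1 hd with h' | h'
  · omega
  · omega

theorem excess_ne (y : ℕ) (x x' : oddPrimes y → ℕ) (hne : x ≠ x') :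
    excess y x x' ≠ excess y x' x := by
  intro h
  have hco := excess_coprime y x x'
  have h1 : excess y x' x = 1 := by
    rw [h] at hco
    exact (Nat.coprime_self _).1 hco
  have h2 : excess y x x' = 1 := h.trans h1
  exact hne (funext fun p => le_antisymm (le_of_excess_eq_one y x x' h2 p)
    (le_of_excess_eq_one y x' x h1 p))

theorem prod_eq_mul_excess (y : ℕ) (x x' : oddPrimes y → ℕ) :
    ∏ p : oddPrimes y, (p : ℕ) ^ x p =
      (∏ p : oddPrimes y, (p : ℕ) ^ min (x p) (x' p)) * excess y x x' := by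
  unfold excess
  rw [← Finset.prod_mul_distrib]
  refine Finset.prod_congr rfl fun p _ => ?_
  rw [← pow_add]
  congr 1
  omega

theorem excess_modEq (y k : ℕ) (x x' : oddPrimes y → ℕ)
    (hc : ((∏ p : oddPrimes y, (p : ℕ) ^ x p : ℕ) : ZMod (2 ^ k)) =
      ((∏ p : oddPrimes y, (p : ℕ) ^ x' p : ℕ) : ZMod (2 ^ k))) :
    excess y x x' ≡ excess y x' x [MOD 2 ^ k] := by
  have h := (ZMod.natCast_eq_natCast_iff _ _ _).1 hc
  rw [prod_eq_mul_excess y x x', prod_eq_mul_excess y x' x] at h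
  have hmin : (∏ p : oddPrimes y, (p : ℕ) ^ min (x' p) (x p)) =
      ∏ p : oddPrimes y, (p : ℕ) ^ min (x p) (x' p) :=
    Finset.prod_congr rfl fun p _ => by rw [min_comm]
  rw [hmin] at h
  refine Nat.ModEq.cancel_left_of_coprime ?_ h
  refine Nat.Coprime.prod_right fun p _ => Nat.Coprime.pow _ _ ?_
  refine (Nat.coprime_primes Nat.prime_two (prime_of_mem_oddPrimes p.2)).2 ?_
  have := three_le_of_mem_oddPrimes p.2
  omega

theorem log_excess (y : ℕ) (x x' : oddPrimes y → ℕ) :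
    2 * Real.log (excess y x x') =
      ∑ p : oddPrimes y, Real.log (p : ℕ) * |(x p : ℝ) - x' p| +
        ∑ p : oddPrimes y, Real.log (p : ℕ) * ((x p : ℝ) - x' p) := by
  unfold excess
  rw [Nat.cast_prod, Real.log_prod, Finset.mul_sum, ← Finset.sum_add_distrib]
  · refine Finset.sum_congr rfl fun p _ => ?_
    rw [Nat.cast_pow, Real.log_pow]
    rcases le_total (x p) (x' p) with h | h
    · have h' : (x p : ℝ) ≤ x' p := by exact_mod_cast h
      rw [Nat.sub_eq_zero_of_le h, abs_of_nonpos (by linarith)]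
      push_cast
      ring
    · have h' : (x' p : ℝ) ≤ x p := by exact_mod_cast h
      rw [Nat.cast_sub h, abs_of_nonneg (by linarith)]
      ring
  · intro p _
    have : 0 < (p : ℕ) ^ (x p - x' p) := pow_pos (one_le_of_mem_oddPrimes p.2) _
    exact_mod_cast this.ne'

theorem triple_of_collision (y k : ℕ) (hk : 1 ≤ k) (x x' : oddPrimes y → ℕ) (hne : x ≠ x')
    (hc : ((∏ p : oddPrimes y, (p : ℕ) ^ x p : ℕ) : ZMod (2 ^ k)) =
      ((∏ p : oddPrimes y, (p : ℕ) ^ x' p : ℕ) : ZMod (2 ^ k)))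
    (L : ℝ) (hL : ∑ p : oddPrimes y, Real.log (p : ℕ) * |(x p : ℝ) - x' p| +
      |∑ p : oddPrimes y, Real.log (p : ℕ) * ((x p : ℝ) - x' p)| ≤ 2 * L) :
    ∃ a b c : ℕ, 0 < a ∧ 0 < b ∧ Nat.Coprime a b ∧ a + b = c ∧ 2 ^ k ≤ c ∧ Real.log c ≤ L ∧
      (∏ p ∈ (a * b * c).primeFactors, p) * 2 ^ k ≤ 2 * (∏ p ∈ oddPrimes y, p) * c := by
  have hmod := excess_modEq y k x x' hc
  have hco := excess_coprime y x x'
  have hl1 : Real.log (excess y x x') ≤ L := by
    have h := log_excess y x x'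
    have h2 := le_abs_self (∑ p : oddPrimes y, Real.log (p : ℕ) * ((x p : ℝ) - x' p))
    linarith
  have hl2 : Real.log (excess y x' x) ≤ L := by
    have h := log_excess y x' x
    have h2 := neg_le_abs (∑ p : oddPrimes y, Real.log (p : ℕ) * ((x p : ℝ) - x' p))
    have h3 : ∑ p : oddPrimes y, Real.log (p : ℕ) * |(x' p : ℝ) - x p| =
        ∑ p : oddPrimes y, Real.log (p : ℕ) * |(x p : ℝ) - x' p| :=
      Finset.sum_congr rfl fun p _ => by rw [abs_sub_comm]
    have h4 : ∑ p : oddPrimes y, Real.log (p : ℕ) * ((x' p : ℝ) - x p) =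
        -∑ p : oddPrimes y, Real.log (p : ℕ) * ((x p : ℝ) - x' p) := by
      rw [← Finset.sum_neg_distrib]
      exact Finset.sum_congr rfl fun p _ => by ring
    linarith
  rcases lt_or_gt_of_ne (excess_ne y x x' hne) with h | h
  · obtain ⟨h1, h2, h3, h4, h5⟩ := triple_of_lt y k _ _ (excess_pos y x x') h hco hmod
      (excess_primeFactors y x x') (excess_primeFactors y x' x)
    exact ⟨_, _, _, excess_pos y x x', h1, h2, h3, h4, hl2, h5⟩
  · obtain ⟨h1, h2, h3, h4, h5⟩ := triple_of_lt y k _ _ (excess_pos y x' x) h hco.symm hmod.symm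
      (excess_primeFactors y x' x) (excess_primeFactors y x x')
    exact ⟨_, _, _, excess_pos y x' x, h1, h2, h3, h4, hl1, h5⟩

end Pool.Agent.P.MP_9ec3f0_nt.ABC
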