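import Pool.Agent.P.MP_9ec3f0_nt.ABC.Defs
import Pool.Agent.Lib.PNT.PrimeSums

/-!
The asymptotic choice of the parameters in the construction of extremal abc triples.
-/

open Finset Filter Topology

namespace Pool.Agent.P.MP_9ec3f0_nt.ABC

lemma mem_oddPrimes {y p : ℕ} : p ∈ oddPrimes y ↔ 3 ≤ p ∧ p ≤ y ∧ p.Prime := by
  simp [oddPrimes, and_assoc]

lemma card_oddPrimes_succ {y : ℕ} (hy : 2 ≤ y) :
    (oddPrimes y).card + 1 = Nat.primeCounting y := by
  have h2 : 2 ∉ oddPrimes y := by simp [mem_oddPrimes]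
  rw [← Finset.card_insert_of_notMem h2, Nat.primeCounting, Nat.primeCounting',
    Nat.count_eq_card_filter_range]
  congr 1
  ext p
  simp only [Finset.mem_insert, mem_oddPrimes, Finset.mem_filter, Finset.mem_range]
  constructor
  · rintro (rfl | ⟨-, h, hp⟩)
    · exact ⟨by omega, Nat.prime_two⟩
    · exact ⟨by omega, hp⟩
  · rintro ⟨h, hp⟩
    have := hp.two_le
    by_cases h' : p = 2
    · exact Or.inl h'
    · exact Or.inr ⟨by omega, by omega, hp⟩

lemma log_div_tendsto : Tendsto (fun y : ℕ => Real.log y / y) atTop (𝓝 0) := by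
  have := Real.isLittleO_log_id_atTop.tendsto_div_nhds_zero
  exact this.comp tendsto_natCast_atTop_atTop

lemma card_tendsto :
    Tendsto (fun y : ℕ => ((oddPrimes y).card : ℝ) * Real.log y / y) atTop (𝓝 1) := by
  have h1 := (Pool.Agent.Lib.PNT.primeCounting_tendsto.comp tendsto_natCast_atTop_atTop).sub
    log_div_tendsto
  rw [sub_zero] at h1
  refine h1.congr' ?_
  filter_upwards [eventually_ge_atTop 2] with y hy
  simp only [Function.comp, Nat.floor_natCast]
  rw [← card_oddPrimes_succ hy]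
  push_cast
  ring

lemma card_atTop : Tendsto (fun y : ℕ => (oddPrimes y).card) atTop atTop := by
  rw [tendsto_atTop]
  intro B
  have := tendsto_atTop.1 Nat.tendsto_primeCounting (B + 1)
  filter_upwards [this, eventually_ge_atTop 2] with y h hy
  have := card_oddPrimes_succ hy
  omega

lemma sum_log_ge {ε : ℝ} (hε : 0 < ε) :
    ∀ᶠ y : ℕ in atTop, (1 - ε) * y / Real.log y ≤ ∑ p ∈ oddPrimes y, Real.log (y / p) := by
  obtain ⟨α, hα0, hα1, hα⟩ : ∃ α : ℝ, 0 < α ∧ α < 1 ∧ 1 - ε < α * Real.log α + 1 - α := by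
    have hc : Continuous fun α : ℝ => α * Real.log α + 1 - α :=
      (Real.continuous_mul_log.add continuous_const).sub continuous_id
    have h0 : ∀ᶠ α in 𝓝 (0 : ℝ), 1 - ε < α * Real.log α + 1 - α :=
      hc.continuousAt.eventually (lt_mem_nhds (by simp; linarith))
    have h1 : ∀ᶠ α in 𝓝 (0 : ℝ), α < 1 := gt_mem_nhds one_pos
    obtain ⟨α, ⟨h, h'⟩, h''⟩ :=
      (((h0.and h1).filter_mono nhdsWithin_le_nhds).and
        (self_mem_nhdsWithin (a := (0 : ℝ)) (s := Set.Ioi 0))).exists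
    exact ⟨α, h'', h', h⟩
  have key := Pool.Agent.Lib.PNT.prime_sum_tendsto (α := α) (β := 1) hα0.le hα1.le
    (f := fun x => -Real.log x) (M := -Real.log α) (fun x hx => by
      rw [abs_neg, abs_of_nonpos (Real.log_nonpos (hα0.trans hx.1).le hx.2)]
      exact neg_le_neg (Real.log_le_log hα0 hx.1.le))
    (Eventually.of_forall fun x hx =>
      (Real.continuousAt_log (hα0.trans hx.1).ne').neg)
  rw [intervalIntegral.integral_neg, integral_log] at key
  have hlim : 1 - ε < -(1 * Real.log 1 - α * Real.log α - 1 + α) := by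
    rw [Real.log_one]; linarith
  have h1 := (key.comp tendsto_natCast_atTop_atTop).eventually (lt_mem_nhds hlim)
  have h2 : ∀ᶠ y : ℕ in atTop, (2 : ℝ) ≤ α * y :=
    (tendsto_natCast_atTop_atTop.const_mul_atTop hα0).eventually_ge_atTop 2
  filter_upwards [h1, h2, eventually_ge_atTop 2] with y hy hy2 hy3
  simp only [Function.comp, one_mul, Nat.floor_natCast] at hy
  have hy0 : (0 : ℝ) < y := by exact_mod_cast (by omega : 0 < y)
  have hl : 0 < Real.log y := Real.log_pos (by exact_mod_cast (by omega : 1 < y))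
  rw [lt_div_iff₀ hy0] at hy
  rw [div_le_iff₀ hl]
  refine hy.le.trans ?_
  have hfl : 2 ≤ ⌊α * y⌋₊ := Nat.le_floor (by exact_mod_cast hy2)
  rw [Finset.sum_mul]
  have hsub : (Finset.Ioc ⌊α * y⌋₊ y).filter Nat.Prime ⊆ oddPrimes y := by
    intro p hp
    simp only [Finset.mem_filter, Finset.mem_Ioc] at hp
    exact mem_oddPrimes.2 ⟨by omega, hp.1.2, hp.2⟩
  have hnn : ∀ p ∈ oddPrimes y, 0 ≤ Real.log (y / p) := by
    intro p hp
    obtain ⟨h3, hpy, -⟩ := mem_oddPrimes.1 hp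
    have hp0 : (0 : ℝ) < p := by exact_mod_cast (by omega : 0 < p)
    exact Real.log_nonneg ((one_le_div hp0).2 (by exact_mod_cast hpy))
  refine le_trans (Finset.sum_le_sum fun p hp => ?_)
    (Finset.sum_le_sum_of_subset_of_nonneg hsub fun p hp _ => mul_nonneg (hnn p hp) hl.le)
  obtain ⟨h3, hpy, -⟩ := mem_oddPrimes.1 (hsub hp)
  have hp0 : (0 : ℝ) < p := by exact_mod_cast (by omega : 0 < p)
  have e : -Real.log (p / y) = Real.log (y / p) := by
    rw [← Real.log_inv, inv_div]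
  rw [e]
  exact mul_le_mul_of_nonneg_left (Real.log_le_log hp0 (by exact_mod_cast hpy)) (hnn p (hsub hp))

lemma exists_eps {t D E : ℝ} (ht : 0 < t) (hD : 0 < D) (h : t ^ 2 * D / 2 < Real.exp (E - 1)) :
    ∃ ε : ℝ, 0 < ε ∧ ε < 1 ∧
      1 < Real.log (2 * (1 - ε) / (t ^ 2 * (D + ε) * (1 + ε))) + E - ε ∧
      2 < (1 - ε) * (Real.log (2 * (1 - ε) / (t ^ 2 * (D + ε) * (1 + ε))) + E - ε) + (1 - ε) := by
  have hc : ContinuousAt
      (fun ε : ℝ => Real.log (2 * (1 - ε) / (t ^ 2 * (D + ε) * (1 + ε))) + E - ε) 0 := by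
    refine ContinuousAt.sub (ContinuousAt.add (ContinuousAt.log (ContinuousAt.div ?_ ?_ ?_) ?_)
      continuousAt_const) continuousAt_id
    · fun_prop
    · fun_prop
    · positivity
    · simp only [sub_zero, add_zero, mul_one]; positivity
  have h0 : 1 < Real.log (2 * (1 - 0) / (t ^ 2 * (D + 0) * (1 + 0))) + E - 0 := by
    simp only [sub_zero, add_zero, mul_one]
    have := Real.log_lt_log (by positivity) h
    rw [Real.log_exp] at this
    have e : Real.log (2 / (t ^ 2 * D)) = -Real.log (t ^ 2 * D / 2) := by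
      rw [← Real.log_inv, inv_div]
    linarith
  have hc2 : ContinuousAt (fun ε : ℝ => (1 - ε) *
      (Real.log (2 * (1 - ε) / (t ^ 2 * (D + ε) * (1 + ε))) + E - ε) + (1 - ε)) 0 :=
    ((continuousAt_const.sub continuousAt_id).mul hc).add (continuousAt_const.sub continuousAt_id)
  have h1 := hc.eventually (lt_mem_nhds h0)
  have h2 := hc2.eventually (lt_mem_nhds (a := 2) (by
    show 2 < (1 - 0) * (Real.log (2 * (1 - 0) / (t ^ 2 * (D + 0) * (1 + 0))) + E - 0) + (1 - 0)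
    linarith))
  have h3 : ∀ᶠ ε in 𝓝 (0 : ℝ), ε < 1 := gt_mem_nhds one_pos
  obtain ⟨ε, ⟨⟨a, b⟩, c⟩, d⟩ :=
    ((((h1.and h2).and h3).filter_mono nhdsWithin_le_nhds).and
      (self_mem_nhdsWithin (a := (0 : ℝ)) (s := Set.Ioi 0))).exists
  exact ⟨ε, d, c, a, b⟩

lemma final_ineq {t F : ℝ} (hF : 2 < F) :
    ∀ᶠ y : ℕ in atTop, Real.log 4 + 2 * y / (Real.log y - Real.log t) ≤ F * y / Real.log y := by
  have hlog : Tendsto (fun y : ℕ => Real.log y) atTop atTop :=
    Real.tendsto_log_atTop.comp tendsto_natCast_atTop_atTop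
  have h1 : Tendsto (fun y : ℕ => Real.log t / Real.log y) atTop (𝓝 0) :=
    hlog.const_div_atTop _
  have h2 : Tendsto (fun y : ℕ => Real.log 4 * (Real.log y / y) + 2 / (1 - Real.log t / Real.log y))
      atTop (𝓝 (Real.log 4 * 0 + 2 / (1 - 0))) :=
    (log_div_tendsto.const_mul _).add (tendsto_const_nhds.div (h1.const_sub 1) (by norm_num))
  have h3 := h2.eventually (gt_mem_nhds (a := F) (by simpa using hF))
  filter_upwards [h3, hlog.eventually_gt_atTop (Real.log t), eventually_ge_atTop 2]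
    with y hy hyt hy2
  have hy0 : (0 : ℝ) < y := by exact_mod_cast (by omega : 0 < y)
  have hl : 0 < Real.log y := Real.log_pos (by exact_mod_cast (by omega : 1 < y))
  have hd : 0 < Real.log y - Real.log t := by linarith
  have e : Real.log 4 + 2 * y / (Real.log y - Real.log t) =
      (Real.log 4 * (Real.log y / y) + 2 / (1 - Real.log t / Real.log y)) * y / Real.log y := by
    have : 1 - Real.log t / Real.log y = (Real.log y - Real.log t) / Real.log y := by
      field_simp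
    rw [this]
    field_simp
  rw [e]
  gcongr

/-- The choice of the parameters. -/
theorem asymp (κ D E : ℝ) (hκ : 0 < κ) (hD : 0 < D) (h : κ ^ 2 * D / 32 < Real.exp (E - 1)) :
    ∃ ε : ℝ, 0 < ε ∧ ∀ B : ℕ, ∃ (y k : ℕ) (L m : ℝ) (s : ℕ → ℕ),
      B ≤ (oddPrimes y).card ∧ B ≤ k ∧
      (∀ p ∈ oddPrimes y, 1 ≤ s p ∧ s p * Real.log p ≤ m) ∧
      (2 : ℝ) ^ k ≤ (∏ p ∈ oddPrimes y, (s p : ℝ)) * Real.exp ((oddPrimes y).card * (E - ε)) ∧
      (oddPrimes y).card * m * (D + ε) ≤ 2 * L ∧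
      2 * ((∏ p ∈ oddPrimes y, p : ℕ) : ℝ) * Real.exp (κ * Real.sqrt L / Real.log L) < 2 ^ k := by
  obtain ⟨t, hκt⟩ : ∃ t : ℝ, κ = 4 * t := ⟨κ / 4, by ring⟩
  have ht : 0 < t := by linarith
  obtain ⟨ε, hε0, hε1, hG, hF⟩ := exists_eps (t := t) (D := D) (E := E) ht hD (by
    rw [hκt] at h; linarith)
  refine ⟨ε, hε0, fun B => ?_⟩
  obtain ⟨c0, hc0⟩ : ∃ c0 : ℝ, c0 = 2 / (t ^ 2 * (D + ε) * (1 + ε)) := ⟨_, rfl⟩
  have hc0pos : 0 < c0 := by rw [hc0]; positivity
  have hce : 2 * (1 - ε) / (t ^ 2 * (D + ε) * (1 + ε)) = (1 - ε) * c0 := by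
    rw [hc0]; ring
  rw [hce] at hG hF
  obtain ⟨G, hGdef⟩ : ∃ G : ℝ, G = Real.log ((1 - ε) * c0) + E - ε := ⟨_, rfl⟩
  rw [← hGdef] at hG hF
  have hlog : Tendsto (fun y : ℕ => Real.log y) atTop atTop :=
    Real.tendsto_log_atTop.comp tendsto_natCast_atTop_atTop
  have ha := card_tendsto.eventually (lt_mem_nhds (a := 1 - ε) (by linarith))
  have hb := card_tendsto.eventually (gt_mem_nhds (a := 1 + ε) (by linarith))
  have hc : ∀ᶠ y : ℕ in atTop, (1 : ℝ) ≤ (ε * c0) * y :=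
    (tendsto_natCast_atTop_atTop.const_mul_atTop (by positivity)).eventually_ge_atTop 1
  have hc' : ∀ᶠ y : ℕ in atTop, (1 : ℝ) ≤ ((1 - ε) * c0) * y :=
    (tendsto_natCast_atTop_atTop.const_mul_atTop
      (mul_pos (by linarith) hc0pos)).eventually_ge_atTop 1
  obtain ⟨y, ⟨⟨⟨⟨⟨⟨⟨ya, yb⟩, yc⟩, yc'⟩, ys⟩, yf⟩, yB⟩, yt⟩, y2⟩ :=
    ((((((((ha.and hb).and hc).and hc').and (sum_log_ge hε0)).and (final_ineq (t := t) hF)).and
      (card_atTop.eventually_ge_atTop (max B 1))).and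
      (hlog.eventually_gt_atTop (Real.log t))).and (eventually_ge_atTop 2)).exists
  obtain ⟨r, hr⟩ : ∃ r : ℕ, r = (oddPrimes y).card := ⟨_, rfl⟩
  rw [← hr] at ya yb yB
  have hr0 : (0 : ℝ) < r := by exact_mod_cast (by omega : 0 < r)
  have hy0 : (0 : ℝ) < y := by exact_mod_cast (by omega : 0 < y)
  have hl : 0 < Real.log y := Real.log_pos (by exact_mod_cast (by omega : 1 < y))
  obtain ⟨L, hL⟩ : ∃ L : ℝ, L = (y / t) ^ 2 := ⟨_, rfl⟩
  obtain ⟨m, hm⟩ : ∃ m : ℝ, m = 2 * L / (r * (D + ε)) := ⟨_, rfl⟩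
  have hm0 : 0 < m := by rw [hm, hL]; positivity
  obtain ⟨s, hs⟩ : ∃ s : ℕ → ℕ, ∀ p, s p = ⌊m / Real.log p⌋₊ := ⟨_, fun _ => rfl⟩
  have hml : c0 * y ≤ m / Real.log y := by
    rw [div_lt_iff₀ hy0] at yb
    rw [le_div_iff₀ hl, hm, le_div_iff₀ (by positivity), hL, hc0]
    have e1 : 2 / (t ^ 2 * (D + ε) * (1 + ε)) * y * Real.log y * (r * (D + ε)) =
        2 * y / (t ^ 2 * (1 + ε)) * (r * Real.log y) := by field_simp
    have e2 : 2 * (y / t) ^ 2 = 2 * y / (t ^ 2 * (1 + ε)) * ((1 + ε) * y) := by field_simp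
    rw [e1, e2]
    exact mul_le_mul_of_nonneg_left yb.le (by positivity)
  have hsp : ∀ p ∈ oddPrimes y, (1 - ε) * c0 * y ≤ s p ∧ s p * Real.log p ≤ m := by
    intro p hp
    obtain ⟨h3, hpy, -⟩ := mem_oddPrimes.1 hp
    have hp0 : (0 : ℝ) < p := by exact_mod_cast (by omega : 0 < p)
    have hlp : 0 < Real.log p := Real.log_pos (by exact_mod_cast (by omega : 1 < p))
    have h1 : m / Real.log y ≤ m / Real.log p :=
      div_le_div_of_nonneg_left hm0.le hlp (Real.log_le_log hp0 (by exact_mod_cast hpy))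
    have h2 : m / Real.log p < s p + 1 := by rw [hs]; exact Nat.lt_floor_add_one _
    have h4 : (s p : ℝ) ≤ m / Real.log p := by rw [hs]; exact Nat.floor_le (by positivity)
    refine ⟨by linarith, ?_⟩
    rwa [le_div_iff₀ hlp] at h4
  obtain ⟨Q, hQ⟩ : ∃ Q : ℝ, Q = (∏ p ∈ oddPrimes y, (s p : ℝ)) * Real.exp (r * (E - ε)) :=
    ⟨_, rfl⟩
  obtain ⟨P, hP⟩ : ∃ P : ℝ, P = ((∏ p ∈ oddPrimes y, p : ℕ) : ℝ) := ⟨_, rfl⟩
  have hsqrt : Real.sqrt L = y / t := by rw [hL]; exact Real.sqrt_sq (by positivity)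
  have hlogL : Real.log L = 2 * (Real.log y - Real.log t) := by
    rw [hL, Real.log_pow, Real.log_div hy0.ne' ht.ne']; norm_num
  have hX : κ * Real.sqrt L / Real.log L = 2 * y / (Real.log y - Real.log t) := by
    have : 0 < Real.log y - Real.log t := by linarith
    rw [hsqrt, hlogL, hκt]; field_simp; norm_num
  have hP1 : (2 : ℝ) ^ r ≤ P := by
    rw [hP, hr]
    have := Finset.pow_card_le_prod (oddPrimes y) (fun p => p) 2 fun p hp => by
      have := (mem_oddPrimes.1 hp).1; omega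
    exact_mod_cast this
  have hPpos : 0 < P := lt_of_lt_of_le (by positivity) hP1
  have hmain : 4 * P * Real.exp (κ * Real.sqrt L / Real.log L) ≤ Q := by
    have hcpos : 0 < (1 - ε) * c0 := mul_pos (by linarith) hc0pos
    have h1 : ∏ p ∈ oddPrimes y, ((1 - ε) * c0 * y) ≤ ∏ p ∈ oddPrimes y, (s p : ℝ) :=
      Finset.prod_le_prod (fun p _ => by positivity) fun p hp => (hsp p hp).1
    have h2 : ∏ p ∈ oddPrimes y, ((1 - ε) * c0 * y) =
        P * Real.exp (r * Real.log ((1 - ε) * c0) + ∑ p ∈ oddPrimes y, Real.log (y / p)) := by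
      rw [hP, hr, Real.exp_add, Real.exp_sum, Real.exp_nat_mul, Real.exp_log hcpos,
        ← Finset.prod_const, Nat.cast_prod, ← Finset.prod_mul_distrib, ← Finset.prod_mul_distrib]
      refine Finset.prod_congr rfl fun p hp => ?_
      have hp0 : (0 : ℝ) < p := by
        have := (mem_oddPrimes.1 hp).1
        exact_mod_cast (by omega : 0 < p)
      rw [Real.exp_log (by positivity)]
      field_simp
    have h3 : (1 - ε) * y / Real.log y ≤ r := by
      rw [lt_div_iff₀ hy0] at ya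
      rw [div_le_iff₀ hl]
      exact ya.le
    have h4 : ((1 - ε) * G + (1 - ε)) * y / Real.log y =
        (1 - ε) * y / Real.log y * G + (1 - ε) * y / Real.log y := by ring
    have h5 : (1 - ε) * y / Real.log y * G ≤ r * G :=
      mul_le_mul_of_nonneg_right h3 (by linarith)
    have h6 : Real.log 4 + κ * Real.sqrt L / Real.log L ≤
        (r * Real.log ((1 - ε) * c0) + ∑ p ∈ oddPrimes y, Real.log (y / p)) + r * (E - ε) := by
      rw [hX]
      have : r * G = r * Real.log ((1 - ε) * c0) + r * (E - ε) := by rw [hGdef]; ring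
      linarith
    calc 4 * P * Real.exp (κ * Real.sqrt L / Real.log L)
        = P * Real.exp (Real.log 4 + κ * Real.sqrt L / Real.log L) := by
          rw [Real.exp_add, Real.exp_log (by norm_num)]; ring
      _ ≤ P * Real.exp ((r * Real.log ((1 - ε) * c0) +
            ∑ p ∈ oddPrimes y, Real.log (y / p)) + r * (E - ε)) := by gcongr
      _ = (∏ p ∈ oddPrimes y, ((1 - ε) * c0 * y)) * Real.exp (r * (E - ε)) := by
          rw [h2, Real.exp_add _ (r * (E - ε))]; ring
      _ ≤ Q := by rw [hQ]; gcongr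
  have hexp : 1 ≤ Real.exp (κ * Real.sqrt L / Real.log L) := by
    rw [hX]
    have : 0 < Real.log y - Real.log t := by linarith
    exact Real.one_le_exp (by positivity)
  have hQ1 : 1 ≤ Q := by
    have : (1 : ℝ) ≤ 2 ^ r := one_le_pow₀ (by norm_num)
    have h0 : P * 1 ≤ P * Real.exp (κ * Real.sqrt L / Real.log L) :=
      mul_le_mul_of_nonneg_left hexp hPpos.le
    linarith
  obtain ⟨k, hk1, hk2⟩ := exists_nat_pow_near hQ1 (one_lt_two (α := ℝ))
  have hlast : 2 * P * Real.exp (κ * Real.sqrt L / Real.log L) < 2 ^ k := by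
    rw [pow_succ] at hk2
    linarith
  refine ⟨y, k, L, m, s, by omega, ?_, fun p hp => ⟨?_, (hsp p hp).2⟩, by rwa [← hr, ← hQ], ?_,
    by rwa [← hP]⟩
  · have h0 : P * 1 ≤ P * Real.exp (κ * Real.sqrt L / Real.log L) :=
      mul_le_mul_of_nonneg_left hexp hPpos.le
    have h1 : (2 : ℝ) ^ r < 2 ^ k := by linarith
    have := (pow_lt_pow_iff_right₀ (one_lt_two (α := ℝ))).1 h1
    omega
  · exact_mod_cast yc'.trans (hsp p hp).1
  · rw [hm, ← hr]
    apply le_of_eq
    field_simp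

end Pool.Agent.P.MP_9ec3f0_nt.ABC
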