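import Pool.Agent.P.MP_9ec3f0_nt.ABC.Defs

/-! One-coordinate identities for the kernel data. -/

open Finset

namespace Pool.Agent.P.MP_9ec3f0_nt.ABC

section Local
variable {N J : ℕ}

/-- T3 (file Local.lean): one-coordinate identities. -/
theorem Data.a_symm (X : Data N J) (j l : Fin N) : X.a j l = X.a l j :=
  sum_congr rfl fun k _ => by ring

theorem Data.sum_a_mul_φ (X : Data N J) (k : Fin J) (l : Fin N) :
    ∑ j, X.φ k j * X.a j l = X.w k * X.φ k l := by
  have e : ∀ j, X.φ k j * X.a j l = ∑ k', X.w k' * X.φ k' l * (X.φ k j * X.φ k' j) := by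
    intro j
    unfold Data.a
    rw [mul_sum]
    exact sum_congr rfl fun k' _ => by ring
  simp only [e]
  rw [sum_comm]
  simp only [← mul_sum, X.orth]
  simp

theorem Data.sum_a_sq (X : Data N J) (j : Fin N) : ∑ l, X.a j l ^ 2 = X.ν j := by
  have e : ∀ l, X.a j l ^ 2 = ∑ k, X.w k * X.φ k j * (X.φ k l * X.a l j) := by
    intro l
    rw [sq]
    nth_rewrite 1 [Data.a]
    rw [sum_mul, X.a_symm l j]
    exact sum_congr rfl fun k _ => by ring
  simp only [e]
  rw [sum_comm]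
  simp only [← mul_sum, X.sum_a_mul_φ]
  exact sum_congr rfl fun k _ => by ring

theorem Data.sum_ν (X : Data N J) : ∑ j, X.ν j = 1 := by
  unfold Data.ν
  rw [sum_comm, ← X.w_sq]
  refine sum_congr rfl fun k _ => ?_
  have := X.orth k k
  rw [if_pos rfl] at this
  simp only [← mul_sum, sq (X.φ _ _), this, mul_one]

theorem sum_range_sub_cast (s : ℕ) : ∑ u ∈ range s, ((s : ℝ) - u) = (s ^ 2 + s) / 2 := by
  have : ∑ u ∈ range s, (u : ℝ) = (s ^ 2 - s) / 2 := by
    induction s with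
    | zero => simp
    | succ s ih =>
      rw [sum_range_succ, ih]
      push_cast
      ring
  rw [sum_sub_distrib, this, sum_const, card_range, nsmul_eq_mul]
  ring

theorem sum_abs_sub (s : ℕ) :
    ∑ u ∈ range s, ∑ v ∈ range s, |(u : ℝ) - v| = (s ^ 3 - s) / 3 := by
  induction s with
  | zero => simp
  | succ s ih =>
    simp only [sum_range_succ, sum_add_distrib, ih]
    have e1 : ∑ u ∈ range s, |(u : ℝ) - s| = (s ^ 2 + s) / 2 := by
      rw [← sum_range_sub_cast]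
      refine sum_congr rfl fun u hu => ?_
      have : (u : ℝ) ≤ s := by exact_mod_cast (mem_range.1 hu).le
      rw [abs_sub_comm, abs_of_nonneg (by linarith)]
    have e2 : ∑ u ∈ range s, |(s : ℝ) - u| = (s ^ 2 + s) / 2 := by
      rw [← e1]
      exact sum_congr rfl fun u _ => abs_sub_comm _ _
    rw [e1, e2]
    push_cast
    simp only [sub_self, abs_zero]
    ring

theorem sum_disp_lt {s j l : ℕ} (h : l < j) :
    ∑ u : Fin s, ∑ v : Fin s, |((j * s + (u : ℕ) : ℕ) : ℝ) - ((l * s + (v : ℕ) : ℕ) : ℝ)| =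
      s ^ 3 * ((j : ℝ) - l) := by
  have e : ∀ u v : Fin s, |((j * s + (u : ℕ) : ℕ) : ℝ) - ((l * s + (v : ℕ) : ℕ) : ℝ)| =
      ((j : ℝ) - l) * s + ((u : ℕ) : ℝ) - ((v : ℕ) : ℝ) := by
    intro u v
    have h1 : l * s + v ≤ j * s + u := by
      have := v.2
      have h2 : (l + 1) * s ≤ j * s := Nat.mul_le_mul_right _ h
      rw [Nat.succ_mul] at h2
      omega
    rw [abs_of_nonneg (sub_nonneg.2 (by exact_mod_cast h1))]
    push_cast
    ring
  simp only [e, sum_sub_distrib, sum_add_distrib, sum_const, card_univ, Fintype.card_fin,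
    nsmul_eq_mul, ← mul_sum]
  ring

theorem sum_disp_le (s j l : ℕ) :
    ∑ u : Fin s, ∑ v : Fin s, |((j * s + (u : ℕ) : ℕ) : ℝ) - ((l * s + (v : ℕ) : ℕ) : ℝ)| ≤
      s ^ 3 * (if j = l then 1 / 3 else |(j : ℝ) - l|) := by
  rcases lt_trichotomy l j with h | h | h
  · rw [sum_disp_lt h, if_neg h.ne', abs_of_nonneg (sub_nonneg.2 (by exact_mod_cast h.le))]
  · subst h
    rw [if_pos rfl]
    have e : ∑ u : Fin s, ∑ v : Fin s,
        |((l * s + (u : ℕ) : ℕ) : ℝ) - ((l * s + (v : ℕ) : ℕ) : ℝ)| =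
        ∑ u ∈ range s, ∑ v ∈ range s, |(u : ℝ) - v| := by
      rw [← Fin.sum_univ_eq_sum_range (fun u => ∑ v ∈ range s, |(u : ℝ) - v|)]
      refine sum_congr rfl fun u _ => ?_
      rw [← Fin.sum_univ_eq_sum_range (fun v => |((u : ℕ) : ℝ) - v|)]
      refine sum_congr rfl fun v _ => ?_
      push_cast
      congr 1
      ring
    rw [e, sum_abs_sub]
    have : (0 : ℝ) ≤ s := Nat.cast_nonneg _
    linarith
  · rw [sum_comm]
    simp only [fun u v : Fin s => abs_sub_comm ((j * s + (u : ℕ) : ℕ) : ℝ)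
      ((l * s + (v : ℕ) : ℕ) : ℝ)]
    rw [sum_disp_lt h, if_neg h.ne, abs_sub_comm,
      abs_of_nonneg (sub_nonneg.2 (by exact_mod_cast h.le))]

/-- mean displacement when every cell is a block of `s` consecutive integers -/
theorem Data.mean_disp (X : Data N J) {s : ℕ} (hs : 1 ≤ s) :
    ∑ b : (Fin N × Fin s) × (Fin N × Fin s), (X.a b.1.1 b.2.1 / s) ^ 2 *
      |(((b.1.1 : ℕ) * s + (b.1.2 : ℕ) : ℕ) : ℝ) - (((b.2.1 : ℕ) * s + (b.2.2 : ℕ) : ℕ) : ℝ)|
      ≤ s * X.D := by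
  have hs' : (0 : ℝ) < s := by exact_mod_cast hs
  simp only [Fintype.sum_prod_type]
  unfold Data.D
  rw [mul_sum]
  refine sum_le_sum fun j _ => ?_
  rw [sum_comm, mul_sum]
  refine sum_le_sum fun l _ => ?_
  simp only [← mul_sum]
  refine (mul_le_mul_of_nonneg_left (sum_disp_le s j l) (sq_nonneg _)).trans (le_of_eq ?_)
  simp only [Fin.val_inj]
  field_simp

theorem sum_cuts_aux {n a b : ℕ} (hab : a ≤ b) (hb : b < n) :
    ∑ c : Fin n, ((if a ≤ (c : ℕ) then (1 : ℝ) else 0) - (if b ≤ (c : ℕ) then (1 : ℝ) else 0)) ^ 2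
      = (b : ℝ) - a := by
  have e : ∀ c : ℕ, ((if a ≤ c then (1 : ℝ) else 0) - (if b ≤ c then (1 : ℝ) else 0)) ^ 2 =
      if c ∈ Ico a b then 1 else 0 := by
    intro c
    simp only [mem_Ico]
    split_ifs <;> first | omega | norm_num
  simp only [e]
  rw [Fin.sum_univ_eq_sum_range (fun c => if c ∈ Ico a b then (1 : ℝ) else 0), sum_boole,
    filter_mem_eq_inter, inter_eq_right.2 (fun c hc => mem_range.2 ((mem_Ico.1 hc).2.trans hb)),
    Nat.card_Ico, Nat.cast_sub hab]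

/-- the absolute value as a sum of cuts -/
theorem abs_eq_sum_cuts {n a b : ℕ} (ha : a < n) (hb : b < n) :
    |(a : ℝ) - b| = ∑ c : Fin n,
      ((if a ≤ (c : ℕ) then (1 : ℝ) else 0) - (if b ≤ (c : ℕ) then (1 : ℝ) else 0)) ^ 2 := by
  rcases le_total a b with h | h
  · rw [sum_cuts_aux h hb, abs_sub_comm, abs_of_nonneg (sub_nonneg.2 (by exact_mod_cast h))]
  · rw [abs_of_nonneg (sub_nonneg.2 (by exact_mod_cast h)), ← sum_cuts_aux h ha]
    exact sum_congr rfl fun c _ => by ring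

end Local

end Pool.Agent.P.MP_9ec3f0_nt.ABC
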