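import Pool.Agent.P.MP_9ec3f0_nt.ABC.Defs

/-! Mean, variance and Chebyshev's inequality for sums over a finite product space. -/

open Finset

namespace Pool.Agent.P.MP_9ec3f0_nt.ABC

section Product
variable {ρ : Type*} [Fintype ρ] [DecidableEq ρ] {β : ρ → Type*} [∀ i, Fintype (β i)]

theorem prod_factor (p h : ∀ i, β i → ℝ) :
    ∑ x : ∀ i, β i, (∏ i, p i (x i)) * ∏ i, h i (x i) = ∏ i, ∑ b, p i b * h i b := by
  rw [Finset.prod_univ_sum, Fintype.piFinset_univ]
  exact sum_congr rfl fun x _ => by rw [prod_mul_distrib]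

theorem prod_single (p g : ∀ i, β i → ℝ) (hp : ∀ i, ∑ b, p i b = 1) (i : ρ) :
    ∑ x : ∀ i, β i, (∏ i, p i (x i)) * g i (x i) = ∑ b, p i b * g i b := by
  have := prod_factor p (fun j b => if j = i then g j b else 1)
  simp only [prod_ite_eq', mem_univ, if_true] at this
  rw [this, prod_eq_single i]
  · simp
  · intro j _ hj
    simp [hj, hp]
  · simp

theorem prod_pair (p g : ∀ i, β i → ℝ) (hg : ∀ i, ∑ b, p i b * g i b = 0) {i k : ρ}
    (hik : i ≠ k) : ∑ x : ∀ i, β i, (∏ i, p i (x i)) * (g i (x i) * g k (x k)) = 0 := by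
  have := prod_factor p (fun j b => (if j = i then g j b else 1) * (if j = k then g j b else 1))
  simp only [prod_mul_distrib, prod_ite_eq', mem_univ, if_true] at this
  rw [this]
  refine prod_eq_zero (mem_univ i) ?_
  simp [hik, hg]

/-- T3 (file Product.lean) -/
theorem prod_mean (p g : ∀ i, β i → ℝ) (hp : ∀ i, ∑ b, p i b = 1) :
    ∑ x : ∀ i, β i, (∏ i, p i (x i)) * ∑ i, g i (x i) = ∑ i, ∑ b, p i b * g i b := by
  simp only [mul_sum]
  rw [sum_comm]
  exact sum_congr rfl fun i _ => prod_single p g hp i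

/-- T3 -/
theorem prod_var (p g : ∀ i, β i → ℝ) (hp : ∀ i, ∑ b, p i b = 1)
    (hg : ∀ i, ∑ b, p i b * g i b = 0) :
    ∑ x : ∀ i, β i, (∏ i, p i (x i)) * (∑ i, g i (x i)) ^ 2 = ∑ i, ∑ b, p i b * g i b ^ 2 := by
  simp only [sq, sum_mul_sum]
  simp only [mul_sum]
  rw [sum_comm]
  refine sum_congr rfl fun i _ => ?_
  rw [sum_comm, sum_eq_single i]
  · exact prod_single p (fun j b => g j b * g j b) hp i
  · intro k _ hk
    exact prod_pair p g hg hk.symm
  · simp

/-- T3: one-sided Chebyshev, the form used twice in T4. -/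
theorem prod_cheb (p g : ∀ i, β i → ℝ) (hp0 : ∀ i b, 0 ≤ p i b) (hp : ∀ i, ∑ b, p i b = 1)
    (c V : ℝ) (hg : ∀ i, ∑ b, p i b * g i b = c) (hV : ∀ i, ∑ b, p i b * (g i b - c) ^ 2 ≤ V)
    {u : ℝ} (hu : 0 < u) (W : Finset (∀ i, β i))
    (hW : ∀ x ∈ W, u ≤ |∑ i, g i (x i) - Fintype.card ρ * c|) :
    ∑ x ∈ W, ∏ i, p i (x i) ≤ Fintype.card ρ * V / u ^ 2 := by
  have h1 := prod_var p (fun i b => g i b - c) hp (fun i => by
    simp only [mul_sub, sum_sub_distrib, ← sum_mul, hg, hp, one_mul, sub_self])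
  have h2 : ∑ i, ∑ b, p i b * (g i b - c) ^ 2 ≤ Fintype.card ρ * V := by
    refine (sum_le_sum fun i _ => hV i).trans (le_of_eq ?_)
    simp
  rw [le_div_iff₀ (by positivity), sum_mul]
  refine le_trans ?_ (h1.le.trans h2)
  refine le_trans (sum_le_sum fun x hx => ?_) (sum_le_sum_of_subset_of_nonneg (subset_univ W)
    fun x _ _ => mul_nonneg (prod_nonneg fun i _ => hp0 _ _) (sq_nonneg _))
  refine mul_le_mul_of_nonneg_left ?_ (prod_nonneg fun i _ => hp0 _ _)
  have h3 := hW x hx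
  rw [sum_sub_distrib, sum_const, card_univ, nsmul_eq_mul, ← sq_abs (_ - _)]
  exact pow_le_pow_left₀ hu.le h3 2

end Product

end Pool.Agent.P.MP_9ec3f0_nt.ABC
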