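import Pool.Agent.P.MP_9ec3f0_nt.ABC.Abstract
import Pool.Agent.P.MP_9ec3f0_nt.ABC.Product
import Pool.Agent.P.MP_9ec3f0_nt.ABC.Local

/-!
The coloured l1 packing bound.
-/

open Finset Filter Topology

namespace Pool.Agent.P.MP_9ec3f0_nt.ABC

namespace Col

section General
variable {ρ : Type*} [Fintype ρ] [DecidableEq ρ] {β : ρ → Type*} [∀ i, Fintype (β i)]

theorem sum_prod_pi (f : ∀ i, β i → ℝ) :
    ∑ x : ∀ i, β i, ∏ i, f i (x i) = ∏ i, ∑ b, f i b := by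
  rw [Finset.prod_univ_sum, Fintype.piFinset_univ]

theorem sum_pairs (F : (∀ i, β i) → (∀ i, β i) → ℝ) :
    ∑ x, ∑ y, F x y = ∑ z : ∀ i, β i × β i, F (fun i => (z i).1) (fun i => (z i).2) := by
  rw [← Fintype.sum_prod_type']
  exact (Fintype.sum_equiv (Equiv.arrowProdEquivProdArrow ρ β β) _ _ fun _ => rfl).symm

end General

theorem sum_cell {N s : ℕ} (hs : 1 ≤ s) (g : Fin N → ℝ) :
    ∑ b : Fin N × Fin s, g b.1 / s = ∑ j, g j := by
  have hs' : (s : ℝ) ≠ 0 := by positivity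
  rw [Fintype.sum_prod_type]
  refine sum_congr rfl fun j _ => ?_
  simp only [sum_const, card_univ, Fintype.card_fin, nsmul_eq_mul]
  field_simp

variable {N J : ℕ} (X : Data N J) {ρ : Type} [Fintype ρ] [DecidableEq ρ] (s : ρ → ℕ)

/-- The position attached to a cell and an offset. -/
def pos (x : ∀ i, Fin N × Fin (s i)) (i : ρ) : ℕ := ((x i).1 : ℕ) * s i + ((x i).2 : ℕ)

/-- The product kernel. -/
noncomputable def AA : Matrix (∀ i, Fin N × Fin (s i)) (∀ i, Fin N × Fin (s i)) ℝ :=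
  Matrix.of fun x y => ∏ i, X.a (x i).1 (y i).1 / s i

/-- The product eigenvectors. -/
noncomputable def ev (α : ρ → Fin J) (x : ∀ i, Fin N × Fin (s i)) : ℝ :=
  ∏ i, X.φ (α i) (x i).1 / Real.sqrt (s i)

omit [Fintype ρ] [DecidableEq ρ] in
theorem pos_lt (x : ∀ i, Fin N × Fin (s i)) (i : ρ) : pos s x i < N * s i := by
  have h1 := (x i).1.2
  have h2 := (x i).2.2
  unfold pos
  nlinarith

omit [Fintype ρ] [DecidableEq ρ] in
theorem pos_inj {x y : ∀ i, Fin N × Fin (s i)} (h : pos s x = pos s y) : x = y := by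
  funext i
  have h1 : ((x i).1 : ℕ) * s i + ((x i).2 : ℕ) = ((y i).1 : ℕ) * s i + ((y i).2 : ℕ) :=
    congrFun h i
  have h2 := (x i).2.2
  have h3 := (y i).2.2
  have h4 := congrArg (· % s i) h1
  simp only [Nat.mul_add_mod_self_right, Nat.mod_eq_of_lt h2, Nat.mod_eq_of_lt h3] at h4
  have h5 : ((x i).1 : ℕ) = (y i).1 :=
    Nat.eq_of_mul_eq_mul_right (show 0 < s i by omega) (by omega)
  exact Prod.ext (Fin.ext h5) (Fin.ext h4)

omit [DecidableEq ρ] in
theorem AA_symm : (AA X s).IsSymm := by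
  ext x y
  simp only [AA, Matrix.transpose_apply, Matrix.of_apply]
  exact prod_congr rfl fun i _ => by rw [X.a_symm]

theorem ν_nonneg (j : Fin N) : 0 ≤ X.ν j := by
  unfold Data.ν
  positivity

variable (hs : ∀ i, 1 ≤ s i)
include hs

theorem sum_AA_sq (x : ∀ i, Fin N × Fin (s i)) :
    ∑ y, AA X s x y ^ 2 = ∏ i, X.ν (x i).1 / s i := by
  simp only [AA, Matrix.of_apply, ← prod_pow]
  rw [sum_prod_pi (fun i (b : Fin N × Fin (s i)) => (X.a (x i).1 b.1 / s i) ^ 2)]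
  refine prod_congr rfl fun i _ => ?_
  rw [← X.sum_a_sq, sum_div, ← sum_cell (hs i)]
  exact sum_congr rfl fun b _ => by ring

theorem AA_mul_diag (x : ∀ i, Fin N × Fin (s i)) :
    (AA X s * AA X s) x x = ∏ i, X.ν (x i).1 / s i := by
  rw [← sum_AA_sq X s hs, Matrix.mul_apply]
  refine sum_congr rfl fun y _ => ?_
  rw [sq, (AA_symm X s).apply x y]

omit [Fintype ρ] [DecidableEq ρ] in
theorem sum_ν_cell (i : ρ) : ∑ b : Fin N × Fin (s i), X.ν b.1 / s i = 1 := by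
  rw [sum_cell (hs i), X.sum_ν]

theorem sum_sum_AA_sq : ∑ x, ∑ y, AA X s x y ^ 2 = 1 := by
  simp only [sum_AA_sq X s hs]
  rw [sum_prod_pi (fun i (b : Fin N × Fin (s i)) => X.ν b.1 / s i)]
  simp only [sum_ν_cell X s hs, prod_const_one]

theorem ev_orth (α α' : ρ → Fin J) :
    ∑ x, ev X s α x * ev X s α' x = if α = α' then 1 else 0 := by
  simp only [ev, ← prod_mul_distrib]
  rw [sum_prod_pi (fun i (b : Fin N × Fin (s i)) =>
    X.φ (α i) b.1 / Real.sqrt (s i) * (X.φ (α' i) b.1 / Real.sqrt (s i)))]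
  have h : ∀ i, ∑ b : Fin N × Fin (s i),
      X.φ (α i) b.1 / Real.sqrt (s i) * (X.φ (α' i) b.1 / Real.sqrt (s i)) =
      if α i = α' i then 1 else 0 := by
    intro i
    rw [← X.orth, ← sum_cell (hs i)]
    refine sum_congr rfl fun b _ => ?_
    rw [div_mul_div_comm, Real.mul_self_sqrt (by positivity)]
  simp only [h]
  rw [Fintype.prod_boole]
  simp only [funext_iff]

theorem ev_AA (α : ρ → Fin J) (x : ∀ i, Fin N × Fin (s i)) :
    ∑ y, ev X s α y * AA X s y x = (∏ i, X.w (α i)) * ev X s α x := by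
  simp only [ev, AA, Matrix.of_apply, ← prod_mul_distrib]
  rw [sum_prod_pi (fun i (b : Fin N × Fin (s i)) =>
    X.φ (α i) b.1 / Real.sqrt (s i) * (X.a b.1 (x i).1 / s i))]
  refine prod_congr rfl fun i _ => ?_
  rw [← mul_div_assoc, ← X.sum_a_mul_φ, sum_div, ← sum_cell (hs i)]
  exact sum_congr rfl fun b _ => by ring

theorem sum_ev_AA_sq (α : ρ → Fin J) :
    ∑ x, (∑ y, ev X s α y * AA X s y x) ^ 2 = ∏ i, X.w (α i) ^ 2 := by
  simp only [ev_AA X s hs, mul_pow]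
  have h := ev_orth X s hs α α
  rw [if_pos rfl] at h
  simp only [← sq] at h
  rw [← mul_sum, h, mul_one, prod_pow]

omit hs in
theorem card_T_le (u : ℝ) :
    ((univ.filter fun α : ρ → Fin J => ∑ i, X.σ (α i) ≤ u).card : ℝ) ≤ Real.exp u := by
  have h1 : ∑ α : ρ → Fin J, ∏ i, Real.exp (-X.σ (α i)) ≤ 1 := by
    rw [sum_prod_pi (fun (_ : ρ) (k : Fin J) => Real.exp (-X.σ k))]
    exact prod_le_one (fun _ _ => by positivity) fun _ _ => X.hσ
  have h2 : ∑ α ∈ univ.filter fun α : ρ → Fin J => ∑ i, X.σ (α i) ≤ u, Real.exp (-u) ≤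
      ∑ α : ρ → Fin J, ∏ i, Real.exp (-X.σ (α i)) := by
    refine le_trans (sum_le_sum fun α hα => ?_)
      (sum_le_sum_of_subset_of_nonneg (filter_subset _ _) fun _ _ _ => by positivity)
    rw [← Real.exp_sum, sum_neg_distrib]
    exact Real.exp_le_exp.2 (neg_le_neg (mem_filter.1 hα).2)
  rw [sum_const, nsmul_eq_mul, Real.exp_neg] at h2
  have h3 := h2.trans h1
  rwa [← div_eq_mul_inv, div_le_one (Real.exp_pos u)] at h3

omit hs in
theorem tail_T {u : ℝ} (hu : 0 < u) :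
    1 - ∑ α ∈ univ.filter fun α : ρ → Fin J => ∑ i, X.σ (α i) ≤ Fintype.card ρ * X.S + u,
      ∏ i, X.w (α i) ^ 2 ≤
      Fintype.card ρ * (∑ k, X.w k ^ 2 * (X.σ k - X.S) ^ 2) / u ^ 2 := by
  have h1 : ∑ α : ρ → Fin J, ∏ i, X.w (α i) ^ 2 = 1 := by
    rw [sum_prod_pi (fun (_ : ρ) (k : Fin J) => X.w k ^ 2)]
    simp only [X.w_sq, prod_const_one]
  rw [← sum_filter_add_sum_filter_not univ
    (fun α : ρ → Fin J => ∑ i, X.σ (α i) ≤ Fintype.card ρ * X.S + u)] at h1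
  rw [← h1, add_sub_cancel_left]
  refine prod_cheb (β := fun _ : ρ => Fin J) (fun _ k => X.w k ^ 2) (fun _ k => X.σ k)
    (fun _ _ => by positivity) (fun _ => X.w_sq) X.S _ (fun _ => rfl) (fun _ => le_rfl) hu _
    fun α hα => ?_
  have := not_le.1 (mem_filter.1 hα).2
  exact le_trans (by linarith) (le_abs_self _)

theorem tail_X {u : ℝ} (hu : 0 < u) :
    ∑ x ∈ (univ.filter fun x : ∀ i, Fin N × Fin (s i) =>
        Fintype.card ρ * X.H - u ≤ ∑ i, X.t (x i).1)ᶜ, (AA X s * AA X s) x x ≤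
      Fintype.card ρ * (∑ j, X.ν j * (X.t j - X.H) ^ 2) / u ^ 2 := by
  simp only [AA_mul_diag X s hs]
  refine prod_cheb (β := fun i : ρ => Fin N × Fin (s i)) (fun i b => X.ν b.1 / s i)
    (fun _ b => X.t b.1) (fun _ b => by have := ν_nonneg X b.1; positivity)
    (sum_ν_cell X s hs) X.H _ (fun i => ?_) (fun i => le_of_eq ?_) hu _ fun x hx => ?_
  · rw [Data.H, ← sum_cell (hs i)]
    exact sum_congr rfl fun b _ => by ring
  · rw [← sum_cell (hs i)]
    exact sum_congr rfl fun b _ => by ring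
  · have := not_le.1 fun h => (mem_compl.1 hx) (mem_filter.2 ⟨mem_univ _, h⟩)
    exact le_trans (by linarith) (neg_le_abs _)

theorem diag_le (u : ℝ) (x : ∀ i, Fin N × Fin (s i)) (hx : u ≤ ∑ i, X.t (x i).1) :
    (AA X s * AA X s) x x ≤ Real.exp (-u) / ∏ i, (s i : ℝ) := by
  rw [AA_mul_diag X s hs, prod_div_distrib]
  refine div_le_div_of_nonneg_right ?_ (by positivity)
  refine (prod_le_prod (fun i _ => ν_nonneg X _) fun i _ => X.ht (x i).1).trans ?_
  rw [← Real.exp_sum, sum_neg_distrib]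
  exact Real.exp_le_exp.2 (neg_le_neg hx)

omit [Fintype ρ] [DecidableEq ρ] in
theorem sum_pair_cell (i : ρ) :
    ∑ b : (Fin N × Fin (s i)) × (Fin N × Fin (s i)), (X.a b.1.1 b.2.1 / s i) ^ 2 = 1 := by
  rw [Fintype.sum_prod_type, ← sum_ν_cell X s hs i]
  refine sum_congr rfl fun b _ => ?_
  rw [← X.sum_a_sq, sum_div, ← sum_cell (hs i)]
  exact sum_congr rfl fun b _ => by ring

theorem mean_abs (ℓ : ρ → ℝ) (hℓ : ∀ i, 0 < ℓ i) (m : ℝ) (hm : ∀ i, s i * ℓ i ≤ m)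
    (hD : 0 ≤ X.D) :
    ∑ x, ∑ y, (∑ i, ℓ i * |(pos s x i : ℝ) - pos s y i|) * AA X s x y ^ 2 ≤
      Fintype.card ρ * m * X.D := by
  rw [sum_pairs]
  have h := prod_mean (β := fun i : ρ => (Fin N × Fin (s i)) × (Fin N × Fin (s i)))
    (fun i b => (X.a b.1.1 b.2.1 / s i) ^ 2)
    (fun i b => ℓ i * |(((b.1.1 : ℕ) * s i + (b.1.2 : ℕ) : ℕ) : ℝ) -
      (((b.2.1 : ℕ) * s i + (b.2.2 : ℕ) : ℕ) : ℝ)|) (sum_pair_cell X s hs)
  refine le_trans (le_of_eq (Eq.trans ?_ h)) ?_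
  · refine sum_congr rfl fun z _ => ?_
    simp only [AA, pos, Matrix.of_apply, ← prod_pow]
    rw [mul_comm]
  · rw [mul_assoc, ← nsmul_eq_mul, ← card_univ, ← sum_const]
    refine sum_le_sum fun i _ => ?_
    have h1 := mul_le_mul_of_nonneg_left (X.mean_disp (hs i)) (hℓ i).le
    have h2 := mul_le_mul_of_nonneg_right (hm i) hD
    rw [mul_sum] at h1
    refine le_trans (le_of_eq (sum_congr rfl fun b _ => by ring)) (h1.trans ?_)
    linarith

theorem mean_sq (ℓ : ρ → ℝ) (hℓ : ∀ i, 0 < ℓ i) (m : ℝ) (hm : ∀ i, s i * ℓ i ≤ m) :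
    ∑ x, ∑ y, (∑ i, ℓ i * ((pos s x i : ℝ) - pos s y i)) ^ 2 * AA X s x y ^ 2 ≤
      Fintype.card ρ * (N * m) ^ 2 := by
  rw [sum_pairs]
  have h := prod_var (β := fun i : ρ => (Fin N × Fin (s i)) × (Fin N × Fin (s i)))
    (fun i b => (X.a b.1.1 b.2.1 / s i) ^ 2)
    (fun i b => ℓ i * ((((b.1.1 : ℕ) * s i + (b.1.2 : ℕ) : ℕ) : ℝ) -
      (((b.2.1 : ℕ) * s i + (b.2.2 : ℕ) : ℕ) : ℝ))) (sum_pair_cell X s hs) fun i => by
      have h1 := Fintype.sum_equiv (Equiv.prodComm (Fin N × Fin (s i)) (Fin N × Fin (s i)))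
        (fun b => (X.a b.1.1 b.2.1 / s i) ^ 2 * (ℓ i * ((((b.1.1 : ℕ) * s i + (b.1.2 : ℕ) : ℕ) : ℝ) -
          (((b.2.1 : ℕ) * s i + (b.2.2 : ℕ) : ℕ) : ℝ))))
        (fun b => -((X.a b.1.1 b.2.1 / s i) ^ 2 *
          (ℓ i * ((((b.1.1 : ℕ) * s i + (b.1.2 : ℕ) : ℕ) : ℝ) -
          (((b.2.1 : ℕ) * s i + (b.2.2 : ℕ) : ℕ) : ℝ))))) fun b => by
          simp only [Equiv.prodComm_apply, Prod.fst_swap, Prod.snd_swap]
          rw [X.a_symm b.2.1 b.1.1]
          ring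
      rw [sum_neg_distrib] at h1
      linarith
  refine le_trans (le_of_eq (Eq.trans ?_ h)) ?_
  · refine sum_congr rfl fun z _ => ?_
    simp only [AA, pos, Matrix.of_apply, ← prod_pow]
    rw [mul_comm]
  · rw [← nsmul_eq_mul, ← card_univ, ← sum_const]
    refine sum_le_sum fun i _ => ?_
    rw [← one_mul ((N * m) ^ 2), ← sum_pair_cell X s hs i, sum_mul]
    refine sum_le_sum fun b _ => mul_le_mul_of_nonneg_left ?_ (sq_nonneg _)
    have key : ∀ c : Fin N × Fin (s i), (0 : ℝ) ≤ (((c.1 : ℕ) * s i + (c.2 : ℕ) : ℕ) : ℝ) ∧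
        (((c.1 : ℕ) * s i + (c.2 : ℕ) : ℕ) : ℝ) ≤ N * s i := by
      intro c
      refine ⟨by positivity, ?_⟩
      have h1 := c.1.2
      have h2 := c.2.2
      exact_mod_cast (by nlinarith : (c.1 : ℕ) * s i + (c.2 : ℕ) ≤ N * s i)
    have h1 := key b.1
    have h2 := key b.2
    have h3 := mul_le_mul_of_nonneg_left (hm i) (Nat.cast_nonneg (α := ℝ) N)
    have h4 := (hℓ i).le
    apply sq_le_sq'
    · nlinarith [mul_le_mul_of_nonneg_left h2.2 h4, mul_nonneg h4 h1.1]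
    · nlinarith [mul_le_mul_of_nonneg_left h1.2 h4, mul_nonneg h4 h2.1]

end Col

open Col in
theorem l1_colouring {N J : ℕ} (X : Data N J) {ε : ℝ} (hε : 0 < ε) :
    ∃ r0 : ℕ, ∀ (ρ : Type) [Fintype ρ] [DecidableEq ρ], r0 ≤ Fintype.card ρ →
      ∀ (s : ρ → ℕ) (ℓ : ρ → ℝ) (m : ℝ), (∀ i, 1 ≤ s i) → (∀ i, 0 < ℓ i) →
        (∀ i, s i * ℓ i ≤ m) →
      ∀ (G : Type) [Fintype G] [DecidableEq G] (cls : (ρ → ℕ) → G),
        (Fintype.card G : ℝ) ≤ (∏ i, (s i : ℝ)) * Real.exp (Fintype.card ρ * (X.H - X.S - ε)) →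
        ∃ x y : ρ → ℕ, x ≠ y ∧ cls x = cls y ∧
          ∑ i, ℓ i * |(x i : ℝ) - y i| + |∑ i, ℓ i * ((x i : ℝ) - y i)| ≤
            Fintype.card ρ * m * (X.D + ε) := by
  have hD : 0 ≤ X.D := by
    unfold Data.D
    refine sum_nonneg fun j _ => sum_nonneg fun l _ => mul_nonneg (sq_nonneg _) ?_
    split_ifs <;> positivity
  set V1 : ℝ := ∑ k, X.w k ^ 2 * (X.σ k - X.S) ^ 2 with hV1
  set V2 : ℝ := ∑ j, X.ν j * (X.t j - X.H) ^ 2 with hV2
  set e1 : ℝ := ε / (8 * ((N : ℝ) ^ 2 + 1)) with he1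
  have he1' : 0 < e1 := by positivity
  have he1N : e1 * (N : ℝ) ^ 2 ≤ ε / 8 := by
    rw [he1, div_mul_eq_mul_div, div_le_div_iff₀ (by positivity) (by norm_num)]
    nlinarith
  let η : ℕ → ℝ := fun r =>
    3 * (Real.exp (-(ε / 2 * r)) + 16 * V1 / ε ^ 2 * (r : ℝ)⁻¹) + 16 * V2 / ε ^ 2 * (r : ℝ)⁻¹
  have hη : Tendsto η atTop (𝓝 0) := by
    have h1 : Tendsto (fun r : ℕ => (r : ℝ)⁻¹) atTop (𝓝 0) := tendsto_inv_atTop_nhds_zero_nat
    have h2 : Tendsto (fun r : ℕ => Real.exp (-(ε / 2 * r))) atTop (𝓝 0) :=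
      Real.tendsto_exp_neg_atTop_nhds_zero.comp
        (tendsto_natCast_atTop_atTop.const_mul_atTop (by positivity))
    simpa using ((h2.add (h1.const_mul (16 * V1 / ε ^ 2))).const_mul 3).add
      (h1.const_mul (16 * V2 / ε ^ 2))
  obtain ⟨r0, hr0⟩ := eventually_atTop.1
    ((hη.eventually (gt_mem_nhds (show 0 < 3 * ε / 8 / (X.D + ε / 2) by positivity))).and
      ((tendsto_natCast_atTop_atTop.eventually_ge_atTop
        (4 * (X.D + ε / 2) / e1 / ε ^ 2)).and (eventually_ge_atTop 1)))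
  refine ⟨r0, fun ρ _ _ hρ s ℓ m hs hℓ hm G _ _ cls hG => ?_⟩
  obtain ⟨k1, k2, k3⟩ := hr0 _ hρ
  set r : ℕ := Fintype.card ρ with hr
  have hr' : (0 : ℝ) < r := by exact_mod_cast k3
  have hm0 : 0 < m := by
    obtain ⟨i⟩ := Fintype.card_pos_iff.1 (show 0 < Fintype.card ρ from k3)
    have h1 : (1 : ℝ) ≤ s i := by exact_mod_cast hs i
    have h2 := hℓ i
    exact lt_of_lt_of_le (by positivity) (hm i)
  have hu : 0 < r * (ε / 4) := by positivity
  have hsp : 0 < ∏ i, (s i : ℝ) := prod_pos fun i _ => by exact_mod_cast hs i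
  set T := univ.filter fun α : ρ → Fin J => ∑ i, X.σ (α i) ≤ r * X.S + r * (ε / 4) with hT
  obtain ⟨x, y, hxy, hc, hd⟩ := abstract_packing (T := T)
    (S := Option (Σ i : ρ, Fin (N * s i))) (fun x => cls (pos s x)) (Fintype.card G)
    (card_le_univ _) (AA X s) (AA_symm X s) (sum_sum_AA_sq X s hs)
    (fun j => j.elim (e1 / m) fun c => ℓ c.1)
    (fun j => by rcases j with _ | c; exacts [(div_pos he1' hm0).le, (hℓ _).le])
    (fun j x => j.elim (∑ i, ℓ i * (pos s x i : ℝ))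
      fun c => if pos s x c.1 ≤ (c.2 : ℕ) then 1 else 0)
    (fun x y => ∑ i, ℓ i * |(pos s x i : ℝ) - pos s y i| +
      e1 / m * (∑ i, ℓ i * ((pos s x i : ℝ) - pos s y i)) ^ 2)
    (fun x y => by
      rw [Fintype.sum_option, Fintype.sum_sigma, add_comm]
      simp only [Option.elim, ← sum_sub_distrib, ← mul_sub, ← mul_sum]
      congr 1
      exact sum_congr rfl fun i _ => by rw [abs_eq_sum_cuts (pos_lt s x i) (pos_lt s y i)])
    (fun α => ev X s α.1) (fun α α' => by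
      rw [ev_orth X s hs]
      simp only [Subtype.ext_iff])
    (univ.filter fun x => r * X.H - r * (ε / 4) ≤ ∑ i, X.t (x i).1)
    (Real.exp (-(r * X.H - r * (ε / 4))) / ∏ i, (s i : ℝ)) (by positivity)
    (fun x hx => diag_le X s hs _ x (mem_filter.1 hx).2)
    (r * m * (X.D + ε / 8)) (η r) (r * m * (X.D + ε / 2))
    (by
      simp only [add_mul, sum_add_distrib, mul_assoc (e1 / m), ← mul_sum]
      have h1 := mean_abs X s hs ℓ hℓ m hm hD
      have h2 := mul_le_mul_of_nonneg_left (mean_sq X s hs ℓ hℓ m hm) (div_pos he1' hm0).le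
      have h3 : e1 / m * (r * (N * m) ^ 2) = r * m * (e1 * (N : ℝ) ^ 2) := by field_simp
      have h4 := mul_le_mul_of_nonneg_left he1N (show 0 ≤ r * m by positivity)
      rw [← hr] at h1 h2
      linarith)
    (by
      have h1 := tail_T X (ρ := ρ) hu
      have h2 := tail_X X s hs hu
      have h3 := card_T_le X (ρ := ρ) (r * X.S + r * (ε / 4))
      rw [← hr] at h1 h2
      rw [← hT] at h1 h3
      simp only [sum_ev_AA_sq X s hs]
      rw [Fintype.card_coe, sum_coe_sort T fun α => ∏ i, X.w (α i) ^ 2]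
      have h4 : (Fintype.card G : ℝ) * T.card *
          (Real.exp (-(r * X.H - r * (ε / 4))) / ∏ i, (s i : ℝ)) ≤ Real.exp (-(ε / 2 * r)) := by
        refine (mul_le_mul_of_nonneg_right (mul_le_mul hG h3 (by positivity) (by positivity))
          (by positivity)).trans (le_of_eq ?_)
        rw [show -(ε / 2 * r) = r * (X.H - X.S - ε) + (r * X.S + r * (ε / 4)) +
          -(r * X.H - r * (ε / 4)) by ring, Real.exp_add _ (-(r * X.H - r * (ε / 4))),
          Real.exp_add (r * (X.H - X.S - ε))]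
        generalize Real.exp (r * (X.H - X.S - ε)) = u1
        generalize Real.exp (r * X.S + r * (ε / 4)) = u2
        generalize Real.exp (-(r * X.H - r * (ε / 4))) = u3
        field_simp
      have h5 : ∀ V : ℝ, r * V / (r * (ε / 4)) ^ 2 = 16 * V / ε ^ 2 * (r : ℝ)⁻¹ := fun V => by
        field_simp
        ring
      rw [h5] at h1 h2
      simp only [η]
      linarith)
    (by positivity)
    (by
      rw [lt_div_iff₀ (by positivity)] at k1
      rw [mul_assoc (r * m)]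
      refine mul_lt_mul_of_pos_left ?_ (by positivity)
      nlinarith)
  refine ⟨pos s x, pos s y, fun h => hxy (pos_inj s h), hc, ?_⟩
  have h1 : 0 ≤ ∑ i, ℓ i * |(pos s x i : ℝ) - pos s y i| :=
    sum_nonneg fun i _ => mul_nonneg (hℓ i).le (abs_nonneg _)
  have h2 : 0 ≤ e1 / m * (∑ i, ℓ i * ((pos s x i : ℝ) - pos s y i)) ^ 2 := by positivity
  have h3 : |∑ i, ℓ i * ((pos s x i : ℝ) - pos s y i)| ≤ r * m * (ε / 2) := by
    apply abs_le_of_sq_le_sq' _ (by positivity) |> abs_le.2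
    have h4 : e1 / m * (∑ i, ℓ i * ((pos s x i : ℝ) - pos s y i)) ^ 2 ≤
        r * m * (X.D + ε / 2) := by linarith
    rw [div_mul_eq_mul_div, div_le_iff₀ hm0, mul_comm e1, ← le_div_iff₀ he1'] at h4
    refine h4.trans ?_
    rw [div_le_iff₀ (by positivity), div_le_iff₀ he1'] at k2
    rw [div_le_iff₀ he1']
    nlinarith [mul_le_mul_of_nonneg_left k2 (show 0 ≤ r * m ^ 2 by positivity)]
  linarith

end Pool.Agent.P.MP_9ec3f0_nt.ABC
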