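import Mathlib

/-!
Data for the coloured l1 packing bound used in the construction of extremal abc triples.
-/

open Finset

namespace Pool.Agent.P.MP_9ec3f0_nt.ABC

/-- A low rank symmetric kernel on `N` cells, with entropy certificates. -/
structure Data (N J : ℕ) where
  φ : Fin J → Fin N → ℝ
  w : Fin J → ℝ
  t : Fin N → ℝ
  σ : Fin J → ℝ
  orth : ∀ k k', ∑ j, φ k j * φ k' j = if k = k' then 1 else 0
  w_sq : ∑ k, w k ^ 2 = 1
  ht : ∀ j, ∑ k, w k ^ 2 * φ k j ^ 2 ≤ Real.exp (-t j)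
  hσ : ∑ k, Real.exp (-σ k) ≤ 1

variable {N J : ℕ}

/-- The kernel. -/
def Data.a (X : Data N J) (j l : Fin N) : ℝ := ∑ k, X.w k * X.φ k j * X.φ k l

/-- The cell distribution, the diagonal of the square of the kernel. -/
def Data.ν (X : Data N J) (j : Fin N) : ℝ := ∑ k, X.w k ^ 2 * X.φ k j ^ 2

/-- Certified lower bound for the entropy of the cell distribution. -/
def Data.H (X : Data N J) : ℝ := ∑ j, X.ν j * X.t j

/-- Certified upper bound for the entropy of the spectrum. -/
def Data.S (X : Data N J) : ℝ := ∑ k, X.w k ^ 2 * X.σ k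

/-- Mean displacement, in cell units. -/
noncomputable def Data.D (X : Data N J) : ℝ :=
  ∑ j, ∑ l, X.a j l ^ 2 * (if j = l then 1 / 3 else |((j : ℕ) : ℝ) - ((l : ℕ) : ℝ)|)

/-- The odd primes up to `y`. -/
def oddPrimes (y : ℕ) : Finset ℕ := (Finset.Icc 3 y).filter Nat.Prime

end Pool.Agent.P.MP_9ec3f0_nt.ABC
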