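import Pool.Agent.P.MP_9ec3f0_nt.ABC.Defs

/-!
An explicit kernel on 48 cells of rank 6 with certified entropies and mean displacement.
-/

open Finset

namespace Pool.Agent.P.MP_9ec3f0_nt.ABC

namespace Numeric

/-- The six orthogonal integer vectors. -/
def cL : List (List ℤ) :=
  [
   [296, 361, 441, 538, 656, 798, 969, 1175, 1418, 1705, 2037, 2419, 2851, 3332, 3861, 4429,
    5022, 5621, 6203, 6746, 7223, 7609, 7880, 8018, 8018, 7880, 7609, 7223, 6746, 6203, 5621,
    5022, 4429, 3861, 3332, 2851, 2419, 2037, 1705, 1418, 1175, 969, 798, 656, 538, 441, 361,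
    296],
   [291, 355, 433, 527, 641, 778, 940, 1129, 1348, 1594, 1864, 2149, 2440, 2722, 2977, 3181,
    3304, 3316, 3190, 2911, 2475, 1893, 1189, 406, -406, -1189, -1893, -2475, -2911, -3190,
    -3316, -3304, -3181, -2977, -2722, -2440, -2149, -1864, -1594, -1348, -1129, -940, -778,
    -641, -527, -433, -355, -291],
   [-241, -295, -360, -437, -530, -639, -767, -911, -1068, -1233, -1392, -1530, -1627, -1665,
    -1619, -1471, -1202, -809, -307, 267, 857, 1390, 1794, 2012, 2012, 1794, 1390, 857, 267,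
    -307, -809, -1202, -1471, -1619, -1665, -1627, -1530, -1392, -1233, -1068, -911, -767,
    -639, -530, -437, -360, -295, -241],
   [193, 236, 288, 350, 421, 504, 599, 698, 801, 891, 955, 972, 921, 786, 556, 234, -159, -579,
    -959, -1225, -1311, -1172, -812, -291, 291, 812, 1172, 1311, 1225, 959, 579, 159, -234,
    -556, -786, -921, -972, -955, -891, -801, -698, -599, -504, -421, -350, -288, -236, -193],
   [154, 185, 226, 272, 330, 391, 458, 523, 582, 616, 611, 546, 409, 191, -96, -415, -705,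
    -886, -886, -671, -271, 224, 672, 938, 938, 672, 224, -271, -671, -886, -886, -705, -415,
    -96, 191, 409, 546, 611, 616, 582, 523, 458, 391, 330, 272, 226, 185, 154],
   [114, 139, 168, 202, 242, 286, 329, 369, 393, 393, 347, 248, 86, -129, -366, -566, -652,
    -559, -265, 157, 561, 767, 657, 258, -258, -657, -767, -561, -157, 265, 559, 652, 566, 366,
    129, -86, -248, -347, -393, -393, -369, -329, -286, -242, -202, -168, -139, -114]
  ]

/-- Entry `j` of vector `k`. -/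
def c (k : Fin 6) (j : Fin 48) : ℤ := (cL.getD k []).getD j 0

/-- Squared norms. -/
def n (k : Fin 6) : ℕ := [900028476, 200990130, 63829782, 26630058, 13350396, 7377898].getD k 0

/-- Sum of the squares of the squared norms. -/
def Z : ℕ := 855464357479805584

/-- Cell entropies, times `10 ^ 4`. -/
def TL : List ℕ :=
  [90443, 86470, 82473, 78510, 74559, 70659, 66808, 63009, 59316, 55725, 52284, 48994, 45876,
   42941, 40188, 37642, 35329, 33270, 31483, 29971, 28745, 27814, 27191, 26883, 26883, 27191,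
   27814, 28745, 29971, 31483, 33270, 35329, 37642, 40188, 42941, 45876, 48994, 52284, 55725,
   59316, 63009, 66808, 70659, 74559, 78510, 82473, 86470, 90443]

/-- Cell entropy of cell `j`, times `10 ^ 4`. -/
def T (j : Fin 48) : ℕ := TL.getD j 0

/-- Spectral entropies, times `10 ^ 4`. -/
def Sg (k : Fin 6) : ℕ := [546, 30530, 53470, 70954, 84764, 96625].getD k 0

/-- Upper bounds for the spectral exponentials, times `10 ^ 9`. -/
def R (k : Fin 6) : ℕ := [946863818, 47217061, 4762418, 828910, 208328, 63626].getD k 0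

/-- Numerators of the cell distribution. -/
def NN (j : Fin 48) : ℤ := ∑ k : Fin 6, (n k : ℤ) * c k j ^ 2

/-- Numerator of a Taylor polynomial of the exponential. -/
def P0 (t : ℕ) : ℕ :=
  322560 * 160000 ^ 8 + 322560 * t * 160000 ^ 7 + 161280 * t ^ 2 * 160000 ^ 6 +
    53760 * t ^ 3 * 160000 ^ 5 + 13440 * t ^ 4 * 160000 ^ 4 + 2688 * t ^ 5 * 160000 ^ 3 +
    448 * t ^ 6 * 160000 ^ 2 + 64 * t ^ 7 * 160000

/-- The common denominator. -/
def Den : ℕ := 322560 * 160000 ^ 8

lemma orth_int : ∀ k k' : Fin 6,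
    ∑ j : Fin 48, c k j * c k' j = if k = k' then (n k : ℤ) else 0 := by
  decide +kernel

lemma n_pos : ∀ k : Fin 6, 0 < n k := by decide +kernel

lemma sum_n_sq : ∑ k : Fin 6, n k ^ 2 = Z := by decide +kernel

lemma T_le : ∀ j : Fin 48, T j ≤ 160000 := by decide +kernel

lemma NN_check : ∀ j : Fin 48,
    NN j * ((P0 (T j) + 9 * T j ^ 8 : ℕ) : ℤ) ^ 16 ≤ (Z : ℤ) * (Den : ℤ) ^ 16 := by
  decide +kernel

lemma R_check : ∀ k : Fin 6, Den ^ 16 * 10 ^ 9 ≤ R k * P0 (Sg k) ^ 16 := by decide +kernel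

lemma sum_R : ∑ k : Fin 6, R k ≤ 10 ^ 9 := by decide +kernel

lemma sum_H : ∑ j : Fin 48, NN j * (T j : ℤ) = 27518315840310523052584 := by decide +kernel

lemma sum_S : ∑ k : Fin 6, n k ^ 2 * Sg k = 1964144165880833798956 := by decide +kernel

lemma sum_D : ∑ j : Fin 48, ∑ l : Fin 48, (∑ k : Fin 6, c k j * c k l) ^ 2 *
    (if j = l then 1 else 3 * |((j : ℕ) : ℤ) - ((l : ℕ) : ℤ)|) = 12829341230371888556 := by
  decide +kernel

lemma Den_pos : (0 : ℝ) < Den := by unfold Den; positivity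

lemma exp_upper (t : ℕ) (ht : t ≤ 160000) :
    Real.exp ((t : ℝ) / 10 ^ 4) ≤ (((P0 t + 9 * t ^ 8 : ℕ) : ℝ) / Den) ^ 16 := by
  have h0 : (0 : ℝ) ≤ (t : ℝ) / 160000 := by positivity
  have h1 : (t : ℝ) / 160000 ≤ 1 := by
    rw [div_le_one (by norm_num)]; exact_mod_cast ht
  have h2 := Real.exp_bound' h0 h1 (n := 8) (by norm_num)
  have h3 : Real.exp ((t : ℝ) / 10 ^ 4) = Real.exp ((t : ℝ) / 160000) ^ 16 := by
    rw [← Real.exp_nat_mul]; congr 1; push_cast; ring
  rw [h3]
  refine pow_le_pow_left₀ (Real.exp_pos _).le (h2.trans (le_of_eq ?_)) 16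
  simp only [Finset.sum_range_succ, Finset.sum_range_zero, Nat.factorial, P0, Den]
  push_cast
  field_simp
  ring

lemma exp_lower (t : ℕ) : (((P0 t : ℕ) : ℝ) / Den) ^ 16 ≤ Real.exp ((t : ℝ) / 10 ^ 4) := by
  have h0 : (0 : ℝ) ≤ (t : ℝ) / 160000 := by positivity
  have h2 := Real.sum_le_exp_of_nonneg h0 8
  have h3 : Real.exp ((t : ℝ) / 10 ^ 4) = Real.exp ((t : ℝ) / 160000) ^ 16 := by
    rw [← Real.exp_nat_mul]; congr 1; push_cast; ring
  rw [h3]
  refine pow_le_pow_left₀ (div_nonneg (Nat.cast_nonneg _) Den_pos.le)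
    (le_trans (le_of_eq ?_) h2) 16
  simp only [Finset.sum_range_succ, Finset.sum_range_zero, Nat.factorial, P0, Den]
  push_cast
  field_simp
  ring

lemma Z_pos : (0 : ℝ) < Z := by unfold Z; positivity

lemma n_pos' (k : Fin 6) : (0 : ℝ) < n k := by exact_mod_cast n_pos k

lemma w_sq_eq (k : Fin 6) : ((n k : ℝ) / Real.sqrt Z) ^ 2 = (n k : ℝ) ^ 2 / Z := by
  rw [div_pow, Real.sq_sqrt Z_pos.le]

lemma nu_eq (j : Fin 48) :
    ∑ k : Fin 6, ((n k : ℝ) / Real.sqrt Z) ^ 2 * ((c k j : ℝ) / Real.sqrt (n k)) ^ 2 =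
      (NN j : ℝ) / Z := by
  unfold NN
  push_cast
  rw [Finset.sum_div]
  refine Finset.sum_congr rfl fun k _ => ?_
  rw [w_sq_eq, div_pow, Real.sq_sqrt (n_pos' k).le]
  have := (n_pos' k).ne'
  field_simp

/-- The explicit data. -/
noncomputable def X : Data 48 6 where
  φ k j := (c k j : ℝ) / Real.sqrt (n k)
  w k := (n k : ℝ) / Real.sqrt Z
  t j := (T j : ℝ) / 10 ^ 4
  σ k := (Sg k : ℝ) / 10 ^ 4
  orth k k' := by
    have h1 : ∑ j : Fin 48, (c k j : ℝ) / Real.sqrt (n k) * ((c k' j : ℝ) / Real.sqrt (n k')) =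
        ((∑ j : Fin 48, c k j * c k' j : ℤ) : ℝ) / (Real.sqrt (n k) * Real.sqrt (n k')) := by
      push_cast
      rw [Finset.sum_div]
      refine Finset.sum_congr rfl fun j _ => ?_
      rw [div_mul_div_comm]
    rw [h1, orth_int]
    split_ifs with h
    · subst h
      rw [Real.mul_self_sqrt (n_pos' k).le]
      push_cast
      exact div_self (n_pos' k).ne'
    · simp
  w_sq := by
    simp only [w_sq_eq]
    rw [← Finset.sum_div, div_eq_one_iff_eq Z_pos.ne']
    exact_mod_cast sum_n_sq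
  ht j := by
    rw [nu_eq, Real.exp_neg, div_le_iff₀ Z_pos, inv_mul_eq_div,
      le_div_iff₀ (Real.exp_pos _)]
    have h1 := exp_upper (T j) (T_le j)
    have h2 : (NN j : ℝ) * ((P0 (T j) + 9 * T j ^ 8 : ℕ) : ℝ) ^ 16 ≤ (Z : ℝ) * (Den : ℝ) ^ 16 := by
      exact_mod_cast NN_check j
    have h3 : (0 : ℝ) ≤ NN j := by
      have : (0 : ℤ) ≤ NN j := Finset.sum_nonneg fun k _ => by positivity
      exact_mod_cast this
    refine (mul_le_mul_of_nonneg_left h1 h3).trans ?_
    rw [div_pow, ← mul_div_assoc, div_le_iff₀ (pow_pos Den_pos 16)]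
    exact h2
  hσ := by
    have h1 : ∀ k : Fin 6, Real.exp (-((Sg k : ℝ) / 10 ^ 4)) ≤ (R k : ℝ) / 10 ^ 9 := by
      intro k
      have h2 := exp_lower (Sg k)
      have h3 : (Den : ℝ) ^ 16 * 10 ^ 9 ≤ (R k : ℝ) * (P0 (Sg k) : ℝ) ^ 16 := by
        exact_mod_cast R_check k
      rw [div_pow, div_le_iff₀ (pow_pos Den_pos 16)] at h2
      rw [Real.exp_neg, inv_eq_one_div, div_le_div_iff₀ (Real.exp_pos _) (by norm_num)]
      have h4 : (0 : ℝ) ≤ R k := Nat.cast_nonneg _
      have h5 := mul_le_mul_of_nonneg_left h2 h4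
      have h6 : (Den : ℝ) ^ 16 * (1 * 10 ^ 9) ≤
          (Den : ℝ) ^ 16 * ((R k : ℝ) * Real.exp ((Sg k : ℝ) / 10 ^ 4)) := by linarith
      exact le_of_mul_le_mul_left h6 (pow_pos Den_pos 16)
    refine (Finset.sum_le_sum fun k _ => h1 k).trans ?_
    rw [← Finset.sum_div, div_le_one (by norm_num)]
    exact_mod_cast sum_R

lemma X_a (j l : Fin 48) : X.a j l = ((∑ k : Fin 6, c k j * c k l : ℤ) : ℝ) / Real.sqrt Z := by
  unfold Data.a
  push_cast
  rw [Finset.sum_div]
  refine Finset.sum_congr rfl fun k _ => ?_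
  change (n k : ℝ) / Real.sqrt Z * ((c k j : ℝ) / Real.sqrt (n k)) *
    ((c k l : ℝ) / Real.sqrt (n k)) = _
  have h1 := Real.mul_self_sqrt (n_pos' k).le
  have h2 : Real.sqrt (n k) ≠ 0 := (Real.sqrt_pos.2 (n_pos' k)).ne'
  have h3 : Real.sqrt Z ≠ 0 := (Real.sqrt_pos.2 Z_pos).ne'
  rw [mul_assoc, div_mul_div_comm, h1]
  have := (n_pos' k).ne'
  field_simp

lemma X_D : X.D = 12829341230371888556 / (3 * Z) := by
  have h1 := congrArg (fun z : ℤ => (z : ℝ)) sum_D
  simp only [Int.cast_sum, Int.cast_ofNat] at h1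
  rw [← h1, Finset.sum_div]
  unfold Data.D
  refine Finset.sum_congr rfl fun j _ => ?_
  rw [Finset.sum_div]
  refine Finset.sum_congr rfl fun l _ => ?_
  rw [X_a, div_pow, Real.sq_sqrt Z_pos.le]
  have := Z_pos.ne'
  split_ifs with h
  · push_cast; field_simp
  · push_cast; field_simp

lemma X_H : X.H = 27518315840310523052584 / (Z * 10 ^ 4) := by
  have h1 := congrArg (fun z : ℤ => (z : ℝ)) sum_H
  simp only [Int.cast_sum, Int.cast_ofNat] at h1
  rw [← h1, Finset.sum_div]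
  unfold Data.H
  refine Finset.sum_congr rfl fun j _ => ?_
  have h2 : X.ν j = (NN j : ℝ) / Z := nu_eq j
  rw [h2]
  change (NN j : ℝ) / Z * ((T j : ℝ) / 10 ^ 4) = _
  push_cast
  rw [div_mul_div_comm]

lemma X_S : X.S = 1964144165880833798956 / (Z * 10 ^ 4) := by
  have h1 := congrArg (fun z : ℕ => (z : ℝ)) sum_S
  simp only [Nat.cast_sum, Nat.cast_ofNat] at h1
  rw [← h1, Finset.sum_div]
  unfold Data.S
  refine Finset.sum_congr rfl fun k _ => ?_
  change ((n k : ℝ) / Real.sqrt Z) ^ 2 * ((Sg k : ℝ) / 10 ^ 4) = _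
  rw [w_sq_eq]
  push_cast
  rw [div_mul_div_comm]

end Numeric

open Numeric

/-- Explicit data with a large enough entropy gain. -/
theorem exists_data : ∃ X : Data 48 6, 0 < X.D ∧
    (683 / 100 : ℝ) ^ 2 * X.D / 32 < Real.exp (X.H - X.S - 1) := by
  refine ⟨X, ?_, ?_⟩
  · rw [X_D]; unfold Z; norm_num
  · have h1 : (19871 / 10000 : ℝ) ≤ X.H - X.S - 1 := by
      rw [X_H, X_S]; unfold Z; norm_num
    have h2 := Real.sum_le_exp_of_nonneg (x := 19871 / 10000) (by norm_num) 12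
    refine lt_of_lt_of_le ?_ (h2.trans (Real.exp_le_exp.2 h1))
    rw [X_D]
    unfold Z
    simp only [Finset.sum_range_succ, Finset.sum_range_zero, Nat.factorial]
    norm_num

end Pool.Agent.P.MP_9ec3f0_nt.ABC
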