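import Pool.Agent.P.MP_9ec3f0_nt.ABC.Defs

open Finset

namespace Pool.Agent.P.MP_9ec3f0_nt.ABC

namespace Pinch

open Matrix

/-- a generalised eigenvector for the top of the Rayleigh quotient -/
lemma rayleigh {V : Type*} [NormedAddCommGroup V] [NormedSpace ℝ V] [FiniteDimensional ℝ V]
    (c g : V →ₗ[ℝ] V →ₗ[ℝ] ℝ) (hc : ∀ X Y, c X Y = c Y X) (hg : ∀ X Y, g X Y = g Y X)
    (hpos : ∀ X, X ≠ 0 → 0 < g X X)
    (h : ∀ (τ : ℝ) (Z : V), Z ≠ 0 → (∀ X, c X Z = τ * g X Z) → τ ≤ 1) (X : V) :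
    c X X ≤ g X X := by
  rcases eq_or_ne X 0 with rfl | hX
  · simp
  have : Nontrivial V := ⟨⟨X, 0, hX⟩⟩
  have : ProperSpace V := FiniteDimensional.proper ℝ V
  have cont : ∀ b : V →ₗ[ℝ] V →ₗ[ℝ] ℝ, Continuous fun Y => b Y Y := fun b =>
    b.toContinuousBilinearMap.continuous₂.comp (continuous_id.prodMk continuous_id)
  have ne : ∀ Y ∈ Metric.sphere (0 : V) 1, Y ≠ 0 := fun Y hY => Metric.ne_of_mem_sphere hY one_ne_zero
  obtain ⟨Z, hZ, hm⟩ := (isCompact_sphere (0 : V) 1).exists_isMaxOn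
    (NormedSpace.sphere_nonempty.2 zero_le_one) (f := fun Y => c Y Y / g Y Y)
    ((cont c).continuousOn.div (cont g).continuousOn fun Y hY => (hpos Y (ne Y hY)).ne')
  set τ := c Z Z / g Z Z with hτ
  have h1 : ∀ Y, c Y Y ≤ τ * g Y Y := by
    intro Y
    rcases eq_or_ne Y 0 with rfl | hY
    · simp
    have hn : 0 < ‖Y‖ := norm_pos_iff.2 hY
    have e : c (‖Y‖⁻¹ • Y) (‖Y‖⁻¹ • Y) / g (‖Y‖⁻¹ • Y) (‖Y‖⁻¹ • Y) ≤ τ :=
      hm (show ‖Y‖⁻¹ • Y ∈ Metric.sphere (0 : V) 1 by simp [norm_smul, hn.ne'])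
    simp only [map_smul, LinearMap.smul_apply, smul_eq_mul] at e
    rw [mul_div_mul_left _ _ (by positivity), mul_div_mul_left _ _ (by positivity),
      div_le_iff₀ (hpos Y hY)] at e
    exact e
  have h2 : c Z Z = τ * g Z Z := by rw [hτ, div_mul_cancel₀ _ (hpos Z (ne Z hZ)).ne']
  have h3 : ∀ Y, c Y Z = τ * g Y Z := by
    intro Y
    have q : ∀ t : ℝ, 0 ≤ (τ * g Y Y - c Y Y) * (t * t) + 2 * (τ * g Y Z - c Y Z) * t + 0 := by
      intro t
      have := h1 (Z + t • Y)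
      simp only [map_add, map_smul, LinearMap.add_apply, LinearMap.smul_apply, smul_eq_mul,
        hc Z Y, hg Z Y, h2] at this
      linarith
    have := discrim_le_zero q
    rw [discrim] at this
    nlinarith [sq_nonneg (τ * g Y Z - c Y Z)]
  have h4 := h τ Z (ne Z hZ) h3
  nlinarith [h1 X, hpos X hX]

variable {ι κ : Type*} [Fintype ι] [DecidableEq ι] [DecidableEq κ]

/-- block diagonal matrices -/
def Blk (cls : ι → κ) : Submodule ℝ (Matrix ι ι ℝ) where
  carrier := {Z | ∀ x y, cls x ≠ cls y → Z x y = 0}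
  add_mem' := fun ha hb x y h => by simp [ha x y h, hb x y h]
  zero_mem' := fun x y _ => rfl
  smul_mem' := fun t Z hZ x y h => by simp [hZ x y h]

/-- projection onto a class -/
def Q (cls : ι → κ) (c : κ) : Matrix ι ι ℝ := diagonal fun x => if cls x = c then 1 else 0

lemma blk_iff {cls : ι → κ} {Z : Matrix ι ι ℝ} : Z ∈ Blk cls ↔ ∀ c, Commute Z (Q cls c) := by
  constructor
  · intro h c
    ext x y
    simp only [Q, mul_diagonal, diagonal_mul]
    by_cases e : cls x = cls y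
    · rw [e, mul_comm]
    · rw [h x y e]; simp
  · intro h x y e
    have := congrFun (congrFun (h (cls y)).eq x) y
    simpa [Q, mul_diagonal, diagonal_mul, e] using this

lemma blk_mul {cls : ι → κ} {X Y : Matrix ι ι ℝ} (hX : X ∈ Blk cls) (hY : Y ∈ Blk cls) :
    X * Y ∈ Blk cls := blk_iff.2 fun c => (blk_iff.1 hX c).mul_left (blk_iff.1 hY c)

omit [Fintype ι] [DecidableEq ι] [DecidableEq κ] in
lemma blk_transpose {cls : ι → κ} {X : Matrix ι ι ℝ} (hX : X ∈ Blk cls) : Xᵀ ∈ Blk cls :=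
  fun x y h => hX y x h.symm

lemma blk_inv {cls : ι → κ} {K : Matrix ι ι ℝ} (hK : K ∈ Blk cls) (hu : IsUnit K.det) :
    K⁻¹ ∈ Blk cls := blk_iff.2 fun c => by
  have h := (blk_iff.1 hK c).eq
  have e1 := Matrix.nonsing_inv_mul K hu
  have e2 := Matrix.mul_nonsing_inv K hu
  calc K⁻¹ * Q cls c = K⁻¹ * (Q cls c * K) * K⁻¹ := by
        rw [Matrix.mul_assoc, Matrix.mul_assoc, e2, Matrix.mul_one]
    _ = Q cls c * K⁻¹ := by rw [← h, ← Matrix.mul_assoc, e1, Matrix.one_mul]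

omit [DecidableEq ι] in
lemma tr_eq (X Y : Matrix ι ι ℝ) : trace (Xᵀ * Y) = ∑ p : ι × ι, X p.2 p.1 * Y p.2 p.1 := by
  simp [trace, mul_apply, Fintype.sum_prod_type]

omit [DecidableEq ι] in
lemma tr_cs (X Y : Matrix ι ι ℝ) : trace (Xᵀ * Y) ^ 2 ≤ trace (Xᵀ * X) * trace (Yᵀ * Y) := by
  simp only [tr_eq, ← sq]
  exact sum_mul_sq_le_sq_mul_sq _ _ _

omit [DecidableEq ι] in
lemma tr_nonneg (X : Matrix ι ι ℝ) : 0 ≤ trace (Xᵀ * X) := by
  rw [tr_eq]; exact sum_nonneg fun p _ => mul_self_nonneg _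

omit [DecidableEq ι] in
lemma tr_pos {X : Matrix ι ι ℝ} (hX : X ≠ 0) : 0 < trace (Xᵀ * X) := by
  refine lt_of_le_of_ne (tr_nonneg X) fun h => hX ?_
  exact trace_conjTranspose_mul_self_eq_zero_iff.1 (by simpa using h.symm)

/-- the form with two copies of `A` -/
def form (cls : ι → κ) (A : Matrix ι ι ℝ) : Blk cls →ₗ[ℝ] Blk cls →ₗ[ℝ] ℝ :=
  LinearMap.mk₂ ℝ (fun X Y => trace (X.1ᵀ * A * Y.1 * A))
    (fun _ _ _ => by simp [Matrix.add_mul]) (fun _ _ _ => by simp)
    (fun _ _ _ => by simp [Matrix.add_mul, Matrix.mul_add]) (fun _ _ _ => by simp)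

omit [DecidableEq κ] in
lemma form_apply (cls : ι → κ) (A : Matrix ι ι ℝ) (X Y : Blk cls) :
    form cls A X Y = trace (X.1ᵀ * A * Y.1 * A) := rfl

omit [DecidableEq κ] in
lemma form_symm (cls : ι → κ) {A : Matrix ι ι ℝ} (hA : Aᵀ = A) (X Y : Blk cls) :
    form cls A X Y = form cls A Y X := by
  rw [form_apply, form_apply, ← trace_transpose]
  simp only [transpose_mul, transpose_transpose, hA]
  rw [trace_mul_comm]
  simp only [Matrix.mul_assoc]

open MatrixOrder in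
lemma exists_sqrt {G : Matrix ι ι ℝ} (hG : G.PosDef) :
    ∃ K : Matrix ι ι ℝ, K.PosDef ∧ K * K = G ∧ ∀ Z, Commute G Z → Commute K Z :=
  ⟨CFC.sqrt G, (CFC.sqrt_nonneg G).posSemidef.posDef_iff_isUnit.2
    ((CFC.isUnit_sqrt_iff G hG.posSemidef.nonneg).2 hG.isUnit),
    CFC.sqrt_mul_sqrt_self G hG.posSemidef.nonneg,
    fun Z hZ => by rw [CFC.sqrt_eq_cfc]; exact hZ.cfc_nnreal _⟩

end Pinch

open Pinch Matrix

variable {ι κ : Type*} [Fintype ι] [DecidableEq ι] [DecidableEq κ]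

theorem exists_root (cls : ι → κ) (A : Matrix ι ι ℝ) (hA : A.IsSymm) {ε : ℝ} (hε : 0 < ε) :
    ∃ K : Matrix ι ι ℝ, K.PosDef ∧ (∀ x y, cls x ≠ cls y → K x y = 0) ∧
      ∀ x y, (K * K) x y =
        (if cls x = cls y then (A * A) x y else 0) + (if x = y then ε else 0) := by
  set P : Matrix ι ι ℝ := ∑ c ∈ univ.image cls, (A * Q cls c)ᴴ * (A * Q cls c) with hP
  have h1 : P.PosSemidef := posSemidef_sum _ fun c _ => posSemidef_conjTranspose_mul_self _
  have h2 : ∀ x y, P x y = if cls x = cls y then (A * A) x y else 0 := by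
    intro x y
    have e : ∀ c, ((A * Q cls c)ᴴ * (A * Q cls c)) x y =
        if cls x = c then (if cls x = cls y then (A * A) x y else 0) else 0 := by
      intro c
      rw [conjTranspose_eq_transpose_of_trivial, transpose_mul, hA.eq, Q, diagonal_transpose,
        Matrix.mul_assoc, ← Matrix.mul_assoc A, diagonal_mul, mul_diagonal]
      by_cases e1 : cls x = c
      · subst e1
        by_cases e2 : cls x = cls y
        · simp [e2]
        · simp [e2, Ne.symm e2]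
      · simp [e1]
    rw [hP, Matrix.sum_apply]
    simp only [e]
    rw [sum_ite_eq, if_pos (mem_image_of_mem _ (mem_univ _))]
  have h3 : (P + ε • (1 : Matrix ι ι ℝ)).PosDef := PosDef.posSemidef_add h1 (PosDef.one.smul hε)
  have h4 : ∀ x y, (P + ε • (1 : Matrix ι ι ℝ)) x y =
      (if cls x = cls y then (A * A) x y else 0) + (if x = y then ε else 0) := by
    intro x y
    simp [h2, one_apply]
  obtain ⟨K, k1, k2, k3⟩ := exists_sqrt h3
  refine ⟨K, k1, (blk_iff.2 fun c => k3 _ (blk_iff.1 (fun x y h => ?_) c) : K ∈ Blk cls),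
    fun x y => by rw [k2, h4]⟩
  rw [h4, if_neg h, if_neg (fun e => h (by rw [e])), add_zero]

theorem skew_mono (cls : ι → κ) (A : Matrix ι ι ℝ) (hA : A.IsSymm) {ε : ℝ} (hε : 0 < ε)
    (K : Matrix ι ι ℝ) (hK : K.PosDef) (hb : ∀ x y, cls x ≠ cls y → K x y = 0)
    (hKK : ∀ x y, (K * K) x y =
        (if cls x = cls y then (A * A) x y else 0) + (if x = y then ε else 0))
    (f : ι → ℝ) :
    ∑ x, ∑ y, f x * f y * A x y ^ 2 ≤ ∑ x, ∑ y, f x * f y * K x y ^ 2 := by
  letI : NormedAddCommGroup (Matrix ι ι ℝ) := Matrix.normedAddCommGroup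
  letI : NormedSpace ℝ (Matrix ι ι ℝ) := Matrix.normedSpace
  have hAt : Aᵀ = A := hA.eq
  have hKt : Kᵀ = K := by simpa using hK.isHermitian.eq
  have hKu : IsUnit K.det := (isUnit_iff_isUnit_det K).1 hK.isUnit
  have hKb : K ∈ Blk cls := hb
  have cmp : ∀ W : Matrix ι ι ℝ, W ∈ Blk cls →
      trace (A * A * (Wᵀ * W)) ≤ trace (K * K * (Wᵀ * W)) := by
    intro W hW
    have hW' := blk_mul (blk_transpose hW) hW
    have e : trace (K * K * (Wᵀ * W)) = trace (A * A * (Wᵀ * W)) + ε * trace (Wᵀ * W) := by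
      generalize Wᵀ * W = Y at hW' ⊢
      generalize K * K = M at hKK ⊢
      generalize A * A = N at hKK ⊢
      simp only [trace, Matrix.diag, Matrix.mul_apply, hKK, add_mul, sum_add_distrib, ite_mul, zero_mul,
        sum_ite_eq, mem_univ, if_true, mul_sum]
      congr 1
      refine sum_congr rfl fun x _ => sum_congr rfl fun y _ => ?_
      split_ifs with h
      · rfl
      · rw [hW' y x (Ne.symm h), mul_zero]
    nlinarith [tr_nonneg W]
  have key := rayleigh (form cls A) (form cls K) (form_symm cls hAt) (form_symm cls hKt)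
    (fun X hX => ?_) (fun τ Z hZ h => ?_)
    ⟨diagonal f, fun x y h => diagonal_apply_ne _ fun e => h (by rw [e])⟩
  · have e : ∀ M : Matrix ι ι ℝ, Mᵀ = M → trace ((diagonal f)ᵀ * M * diagonal f * M) =
        ∑ x, ∑ y, f x * f y * M x y ^ 2 := by
      intro M hM
      simp only [trace, Matrix.diag, diagonal_transpose]
      refine sum_congr rfl fun x _ => ?_
      rw [Matrix.mul_apply]
      refine sum_congr rfl fun y _ => ?_
      have : M y x = M x y := congrFun (congrFun hM x) y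
      rw [mul_diagonal, diagonal_mul, this]
      ring
    rwa [form_apply, form_apply, e A hAt, e K hKt] at key
  · obtain ⟨R, r1, r2, -⟩ := exists_sqrt hK
    have hRt : Rᵀ = R := by simpa using r1.isHermitian.eq
    have e : form cls K X X = trace ((R * X.1 * R)ᵀ * (R * X.1 * R)) := by
      rw [form_apply, ← r2]
      simp only [transpose_mul, hRt, Matrix.mul_assoc]
      rw [trace_mul_comm R]
      simp only [Matrix.mul_assoc]
    rw [e]
    refine tr_pos fun h => hX (Subtype.ext ?_)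
    rw [r1.isUnit.mul_left_eq_zero, r1.isUnit.mul_right_eq_zero] at h
    exact h
  · have hX : K⁻¹ * Z.1 * K ∈ Blk cls := blk_mul (blk_mul (blk_inv hKb hKu) Z.2) hKb
    have h1 := h ⟨_, hX⟩
    rw [form_apply, form_apply] at h1
    simp only at h1
    set X := K⁻¹ * Z.1 * K with hXdef
    have e0 : K * X = Z.1 * K := by
      rw [hXdef, ← Matrix.mul_assoc, ← Matrix.mul_assoc, Matrix.mul_nonsing_inv K hKu,
        Matrix.one_mul]
    have e1 : trace (Xᵀ * K * Z.1 * K) = trace ((Z.1 * K)ᵀ * (Z.1 * K)) := by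
      rw [← e0, transpose_mul K X, hKt, e0, Matrix.mul_assoc (Xᵀ * K)]
    have e2 : trace (Xᵀ * A * Z.1 * A) = trace ((A * X)ᵀ * (Z.1 * A)) := by
      rw [transpose_mul A X, hAt, Matrix.mul_assoc (Xᵀ * A)]
    have e3 : ∀ M : Matrix ι ι ℝ, Mᵀ = M →
        trace ((M * X)ᵀ * (M * X)) = trace (M * M * (Xᵀᵀ * Xᵀ)) := by
      intro M hM
      rw [transpose_mul, hM, transpose_transpose, Matrix.mul_assoc, trace_mul_comm]
      simp only [Matrix.mul_assoc]
    have e4 : ∀ M : Matrix ι ι ℝ, Mᵀ = M →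
        trace ((Z.1 * M)ᵀ * (Z.1 * M)) = trace (M * M * (Z.1ᵀ * Z.1)) := by
      intro M hM
      rw [transpose_mul, hM, ← Matrix.mul_assoc, trace_mul_comm]
      simp only [Matrix.mul_assoc]
    have f1 := cmp _ (blk_transpose hX)
    have f2 := cmp _ Z.2
    rw [← e3 A hAt, ← e3 K hKt, e0] at f1
    rw [← e4 A hAt, ← e4 K hKt] at f2
    have f3 := tr_cs (A * X) (Z.1 * A)
    have f4 : 0 < trace ((Z.1 * K)ᵀ * (Z.1 * K)) := tr_pos fun h0 => hZ (Subtype.ext (by
      rw [hK.isUnit.mul_left_eq_zero] at h0; exact h0))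
    rw [e1, e2] at h1
    rw [h1] at f3
    have f5 := mul_le_mul f1 f2 (tr_nonneg _) f4.le
    by_contra hτ
    push Not at hτ
    have f6 : 1 < τ ^ 2 := by nlinarith
    nlinarith [mul_pos f4 f4]

end Pool.Agent.P.MP_9ec3f0_nt.ABC
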